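import Mathlib
import Pool.Agent.Lib.P0c8ca5Kq.Ca
import Pool.Agent.Lib.P0c8ca5Z.Pr

/-!
# Kc.CB: the number of irreducible representations over a cyclic p'-quotient

`N` is normal in `Y`, `Y / N` is cyclic of order `n` prime to `p`, generated by `z`, `f` a `Y`-invariant idempotent of `kN`:
`n l(Y, f)` is the sum over `a, b < n` of the number of the irreducible representations of `N` in `f` that are fixed by
`z ^ a` and `z ^ b` (`cyc_card`).
-/

set_option autoImplicit false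
set_option linter.unusedSectionVars false

namespace Pool.Agent.Lib.P0c8ca5.Kc

open MonoidAlgebra Ps Bq Zz Gg Kq

variable {p : ℕ} {k : Type*} [Field k] {A : Type*} [Group A]

/-- the class `c` of irreducible representations of `N` is fixed by `x` -/
def Fx (N : Subgroup A) (f : MonoidAlgebra k A) (x : A) (c : IrX N f) : Prop :=
  ∃ X, Itw N (Quotient.out c).ρ x X

section
variable {N : Subgroup A} {f : MonoidAlgebra k A} {x y z : A} {c : IrX N f}

theorem Fx.of_mem (hx : x ∈ N) : Fx N f x c := by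
  obtain ⟨X, hX, _⟩ := itw_of_mem (ρ := (Quotient.out c).ρ) hx
  exact ⟨X, hX⟩

theorem Fx.mul (hx : x ∈ Subgroup.normalizer (N : Set A)) (hy : y ∈ Subgroup.normalizer (N : Set A))
    (h1 : Fx N f x c) (h2 : Fx N f y c) : Fx N f (x * y) c := by
  obtain ⟨X, hX⟩ := h1
  obtain ⟨Y, hY⟩ := h2
  exact ⟨_, Itw.mul hx hy hX hY⟩

theorem Fx.inv (hx : x ∈ Subgroup.normalizer (N : Set A)) (h1 : Fx N f x c) :
    Fx N f x⁻¹ c := by
  obtain ⟨X, hX⟩ := h1
  exact ⟨_, Itw.inv hx hX⟩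

theorem Fx.pow (hx : x ∈ Subgroup.normalizer (N : Set A)) (h1 : Fx N f x c) (a : ℕ) :
    Fx N f (x ^ a) c := CaAux.itw_pow hx h1 a

theorem Fx.congr (hx : x ∈ Subgroup.normalizer (N : Set A))
    (hy : y ∈ Subgroup.normalizer (N : Set A)) (hxy : x * y⁻¹ ∈ N) : Fx N f x c ↔ Fx N f y c := by
  constructor
  · intro h
    have h1 := Fx.mul (Subgroup.le_normalizer (N.inv_mem hxy)) hx (Fx.of_mem (N.inv_mem hxy)) h
    have e : (x * y⁻¹)⁻¹ * x = y := by group
    rwa [e] at h1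
  · intro h
    have h1 := Fx.mul (Subgroup.le_normalizer hxy) hy (Fx.of_mem hxy) h
    have e : x * y⁻¹ * y = x := by group
    rwa [e] at h1

/-- the exponents fixing `c` are the multiples of one exponent -/
theorem exists_dvd (hz : z ∈ Subgroup.normalizer (N : Set A)) {n : ℕ} (hn0 : 0 < n)
    (hn : z ^ n ∈ N) (c : IrX N f) :
    ∃ d, 0 < d ∧ Fx N f (z ^ d) c ∧ ∀ a, Fx N f (z ^ a) c ↔ d ∣ a := by
  classical
  have hex : ∃ d, 0 < d ∧ Fx N f (z ^ d) c := ⟨n, hn0, Fx.of_mem hn⟩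
  set d := Nat.find hex with hd
  obtain ⟨hd0, hdc⟩ := Nat.find_spec hex
  refine ⟨d, hd0, hdc, fun a => ⟨fun ha => ?_, ?_⟩⟩
  · have h1 : Fx N f (z ^ (a % d)) c := by
      have h2 := Fx.mul (Subgroup.inv_mem _ (Subgroup.pow_mem _ (Subgroup.pow_mem _ hz d) (a / d)))
        (Subgroup.pow_mem _ hz a) (Fx.inv (Subgroup.pow_mem _ (Subgroup.pow_mem _ hz d) _)
          (Fx.pow (Subgroup.pow_mem _ hz d) hdc (a / d))) ha
      have e : ((z ^ d) ^ (a / d))⁻¹ * z ^ a = z ^ (a % d) := by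
        rw [inv_mul_eq_iff_eq_mul, ← pow_mul, ← pow_add, Nat.div_add_mod]
      rwa [e] at h2
    by_contra h3
    have h4 : 0 < a % d := Nat.pos_of_ne_zero fun h5 => h3 (Nat.dvd_of_mod_eq_zero h5)
    exact Nat.find_min hex (Nat.mod_lt a hd0) ⟨h4, h1⟩
  · rintro ⟨e, rfl⟩
    rw [pow_mul]
    exact Fx.pow (Subgroup.pow_mem _ hz d) hdc e

theorem om_val [IsAlgClosed k] [Finite A] (hz : z ∈ Subgroup.normalizer (N : Set A)) {n : ℕ}
    (hn0 : 0 < n) (hn : z ^ n ∈ N) (c : IrX N f) {a b : ℕ} (hx : x * (z ^ a)⁻¹ ∈ N)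
    (hy : y * (z ^ b)⁻¹ ∈ N) (h1 : Fx N f x c) (h2 : Fx N f y c) : omX N f c x y = 1 := by
  have hxn : x ∈ Subgroup.normalizer (N : Set A) := by
    have h3 := Subgroup.mul_mem _ (Subgroup.le_normalizer hx) (Subgroup.pow_mem _ hz a)
    rwa [inv_mul_cancel_right] at h3
  have hyn : y ∈ Subgroup.normalizer (N : Set A) := by
    have h3 := Subgroup.mul_mem _ (Subgroup.le_normalizer hy) (Subgroup.pow_mem _ hz b)
    rwa [inv_mul_cancel_right] at h3
  obtain ⟨d, hd0, hdc, hd⟩ := exists_dvd hz hn0 hn c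
  obtain ⟨a', ha'⟩ := (hd a).1 ((Fx.congr hxn (Subgroup.pow_mem _ hz a) hx).1 h1)
  obtain ⟨b', hb'⟩ := (hd b).1 ((Fx.congr hyn (Subgroup.pow_mem _ hz b) hy).1 h2)
  refine CaAux.om_one (z := z ^ d) (irr_iff.1 (Quotient.out c).irr) (Subgroup.pow_mem _ hz d) hdc
    (a := a') (b := b') ?_ ?_
  · rw [← pow_mul, ← ha']
    exact hx
  · rw [← pow_mul, ← hb']
    exact hy

end

open Classical in
/-- a sum over `Y` of a function of the cosets -/
theorem sum_cos [Fintype A] {N Y : Subgroup A} (hNY : N ≤ Y) {z : A} (hz : z ∈ Y) {n : ℕ}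
    (h1 : ∀ y ∈ Y, ∃ a < n, y * (z ^ a)⁻¹ ∈ N)
    (h2 : ∀ a < n, ∀ b < n, z ^ a * (z ^ b)⁻¹ ∈ N → a = b) {M : Type*} [AddCommMonoid M]
    (G : A → M) (hG : ∀ a < n, ∀ y ∈ Y, y * (z ^ a)⁻¹ ∈ N → G y = G (z ^ a)) :
    ∑ y ∈ Finset.univ.filter (fun y : A => y ∈ Y), G y
      = Nat.card N • ∑ a ∈ Finset.range n, G (z ^ a) := by
  have h3 : ∀ y : A, ∃ a, y ∈ Y → a < n ∧ y * (z ^ a)⁻¹ ∈ N := by
    intro y
    by_cases hy : y ∈ Y
    · obtain ⟨a, ha, hya⟩ := h1 y hy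
      exact ⟨a, fun _ => ⟨ha, hya⟩⟩
    · exact ⟨0, fun h => absurd h hy⟩
  choose r hr using h3
  rw [← Finset.sum_fiberwise_of_maps_to (s := Finset.univ.filter (fun y : A => y ∈ Y))
    (t := Finset.range n) (g := r) (fun y hy =>
      Finset.mem_range.2 (hr y (Finset.mem_filter.1 hy).2).1), Finset.smul_sum]
  refine Finset.sum_congr rfl fun a ha => ?_
  rw [Finset.mem_range] at ha
  rw [Finset.sum_congr rfl (g := fun _ => G (z ^ a)) (fun y hy => by
    rw [Finset.mem_filter, Finset.mem_filter] at hy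
    obtain ⟨⟨_, hy1⟩, hy2⟩ := hy
    have h4 := (hr y hy1).2
    rw [hy2] at h4
    exact hG a ha y hy1 h4), Finset.sum_const]
  congr 1
  rw [Nat.card_eq_fintype_card, ← Finset.card_univ]
  symm
  refine Finset.card_bij (fun (m : N) _ => (m : A) * z ^ a) ?_ ?_ ?_
  · intro m _
    rw [Finset.mem_filter, Finset.mem_filter]
    have h5 : (m : A) * z ^ a ∈ Y := Y.mul_mem (hNY m.2) (Y.pow_mem hz a)
    refine ⟨⟨Finset.mem_univ _, h5⟩, ?_⟩
    obtain ⟨h6, h7⟩ := hr _ h5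
    refine h2 _ h6 _ ha ?_
    have h8 := N.mul_mem (N.inv_mem h7) m.2
    have e : ((m : A) * z ^ a * (z ^ r ((m : A) * z ^ a))⁻¹)⁻¹ * (m : A)
        = z ^ r ((m : A) * z ^ a) * (z ^ a)⁻¹ := by group
    rwa [e] at h8
  · intro m _ m' _ h
    exact Subtype.ext (mul_right_cancel h)
  · intro y hy
    rw [Finset.mem_filter, Finset.mem_filter] at hy
    obtain ⟨⟨_, hy1⟩, hy2⟩ := hy
    have h4 := (hr y hy1).2
    rw [hy2] at h4
    exact ⟨⟨_, h4⟩, Finset.mem_univ _, by rw [inv_mul_cancel_right]⟩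

/-- the powers of a generator of the cyclic quotient -/
theorem exists_cos [Finite A] {N Y : Subgroup A} (hNY : N ≤ Y)
    (hn : Y ≤ Subgroup.normalizer (N : Set A)) {z : A} (hz : z ∈ Y)
    (hcyc : ∀ y ∈ Y, ∃ a : ℕ, y * (z ^ a)⁻¹ ∈ N) :
    (∀ y ∈ Y, ∃ a < N.relIndex Y, y * (z ^ a)⁻¹ ∈ N) ∧
      (∀ a, z ^ a ∈ N ↔ N.relIndex Y ∣ a) := by
  have hnor : (N.subgroupOf Y).Normal := (Subgroup.normal_subgroupOf_iff hNY).2 fun h g hh hg =>
    (Subgroup.mem_normalizer_iff.1 (hn hg) h).1 hh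
  set q : Y ⧸ N.subgroupOf Y := QuotientGroup.mk ⟨z, hz⟩ with hq
  have hord : ∀ a : ℕ, q ^ a = 1 ↔ z ^ a ∈ N := by
    intro a
    rw [hq, ← QuotientGroup.mk_pow, QuotientGroup.eq_one_iff, Subgroup.mem_subgroupOf]
    rfl
  have hgen : ∀ w : Y ⧸ N.subgroupOf Y, w ∈ Subgroup.zpowers q := by
    intro w
    obtain ⟨y, rfl⟩ := QuotientGroup.mk_surjective w
    obtain ⟨a, ha⟩ := hcyc y y.2
    refine ⟨a, ?_⟩
    change q ^ ((a : ℕ) : ℤ) = _
    rw [zpow_natCast, hq, ← QuotientGroup.mk_pow, QuotientGroup.eq, Subgroup.mem_subgroupOf]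
    change (z ^ a)⁻¹ * (y : A) ∈ N
    have h1 := (Subgroup.mem_normalizer_iff.1 (hn (Y.inv_mem (Y.pow_mem hz a))) _).1 ha
    have e : (z ^ a)⁻¹ * ((y : A) * (z ^ a)⁻¹) * (z ^ a)⁻¹⁻¹ = (z ^ a)⁻¹ * (y : A) := by group
    rwa [e] at h1
  have hcard : orderOf q = N.relIndex Y := by
    rw [orderOf_eq_card_of_forall_mem_zpowers hgen]
    rfl
  have hiff : ∀ a, z ^ a ∈ N ↔ N.relIndex Y ∣ a := by
    intro a
    rw [← hord, ← hcard, orderOf_dvd_iff_pow_eq_one]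
  have hpos : 0 < N.relIndex Y := by
    rw [← hcard]
    exact orderOf_pos q
  refine ⟨fun y hy => ?_, hiff⟩
  obtain ⟨a, ha⟩ := hcyc y hy
  refine ⟨a % N.relIndex Y, Nat.mod_lt _ hpos, ?_⟩
  have h1 : z ^ a * (z ^ (a % N.relIndex Y))⁻¹ ∈ N := by
    have h2 : z ^ a = z ^ (N.relIndex Y * (a / N.relIndex Y)) * z ^ (a % N.relIndex Y) := by
      rw [← pow_add, Nat.div_add_mod]
    rw [h2, mul_inv_cancel_right]
    exact (hiff _).2 (dvd_mul_right _ _)
  have h2 := N.mul_mem ha h1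
  have e : y * (z ^ a)⁻¹ * (z ^ a * (z ^ (a % N.relIndex Y))⁻¹)
      = y * (z ^ (a % N.relIndex Y))⁻¹ := by group
  rwa [e] at h2

open Classical in
theorem cyc_card [Fact p.Prime] [CharP k p] [IsAlgClosed k] [Fintype A] {N Y : Subgroup A}
    (hNY : N ≤ Y) (hn : Y ≤ Subgroup.normalizer (N : Set A)) {f : MonoidAlgebra k A}
    (hf : SuppIn N f) (hfi : InvBy Y f) (hff : f * f = f) {z : A} (hz : z ∈ Y)
    (hcyc : ∀ y ∈ Y, ∃ a : ℕ, y * (z ^ a)⁻¹ ∈ N) (hpn : ¬ p ∣ N.relIndex Y) :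
    N.relIndex Y * Nat.card (IrX Y f) = ∑ a ∈ Finset.range (N.relIndex Y),
      ∑ b ∈ Finset.range (N.relIndex Y),
        Nat.card {c : IrX N f // Fx N f (z ^ a) c ∧ Fx N f (z ^ b) c} := by
  have : Fintype (IrX N f) := Fintype.ofFinite _
  obtain ⟨h1, h2⟩ := exists_cos hNY hn hz hcyc
  set n := N.relIndex Y with hnn
  have hn0 : 0 < n := Nat.pos_of_ne_zero fun h => hpn (by rw [h]; exact dvd_zero _)
  have hzn := hn hz
  have hznN : z ^ n ∈ N := (h2 n).2 dvd_rfl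
  have h2' : ∀ a < n, ∀ b < n, z ^ a * (z ^ b)⁻¹ ∈ N → a = b := by
    have key : ∀ a < n, ∀ b < n, b ≤ a → z ^ a * (z ^ b)⁻¹ ∈ N → a = b := by
      intro a ha b hb hba h
      have e : z ^ a * (z ^ b)⁻¹ = z ^ (a - b) := (pow_sub z hba).symm
      rw [e, h2] at h
      have := Nat.eq_zero_of_dvd_of_lt h (by omega)
      omega
    intro a ha b hb h
    rcases le_total b a with hab | hab
    · exact key a ha b hb hab h
    · refine (key b hb a ha hab ?_).symm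
      have h3 := N.inv_mem h
      have e : (z ^ a * (z ^ b)⁻¹)⁻¹ = z ^ b * (z ^ a)⁻¹ := by group
      rwa [e] at h3
  -- the elements of `Y` commute modulo `N` and are p-regular modulo `N`
  have hcom : ∀ x ∈ Y, ∀ y ∈ Y, y * x * y⁻¹ * x⁻¹ ∈ N := by
    intro x hx y hy
    obtain ⟨a, _, ha⟩ := h1 x hx
    obtain ⟨b, _, hb⟩ := h1 y hy
    have hnor : (N.subgroupOf Y).Normal := (Subgroup.normal_subgroupOf_iff hNY).2
      fun h g hh hg => (Subgroup.mem_normalizer_iff.1 (hn hg) h).1 hh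
    have h3 : ∀ (w : A) (hw : w ∈ Y) (c : ℕ), w * (z ^ c)⁻¹ ∈ N →
        (QuotientGroup.mk ⟨w, hw⟩ : Y ⧸ N.subgroupOf Y) = (QuotientGroup.mk ⟨z, hz⟩) ^ c := by
      intro w hw c hwc
      rw [← QuotientGroup.mk_pow, eq_comm, QuotientGroup.eq, Subgroup.mem_subgroupOf]
      change (z ^ c)⁻¹ * w ∈ N
      have h1 := (Subgroup.mem_normalizer_iff.1 (hn (Y.inv_mem (Y.pow_mem hz c))) _).1 hwc
      have e : (z ^ c)⁻¹ * (w * (z ^ c)⁻¹) * (z ^ c)⁻¹⁻¹ = (z ^ c)⁻¹ * w := by group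
      rwa [e] at h1
    have h4 : (QuotientGroup.mk (⟨y, hy⟩ * ⟨x, hx⟩ * ⟨y, hy⟩⁻¹ * ⟨x, hx⟩⁻¹ : Y) :
        Y ⧸ N.subgroupOf Y) = 1 := by
      rw [QuotientGroup.mk_mul, QuotientGroup.mk_mul, QuotientGroup.mk_mul, QuotientGroup.mk_inv,
        QuotientGroup.mk_inv, h3 x hx a ha, h3 y hy b hb]
      rw [(Commute.pow_pow_self _ b a).eq, mul_inv_cancel_right, mul_inv_cancel]
    rw [QuotientGroup.eq_one_iff, Subgroup.mem_subgroupOf] at h4
    exact h4
  have hprm : ∀ x ∈ Y, Prm p N x := by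
    intro x hx
    obtain ⟨a, _, ha⟩ := h1 x hx
    have hnor : (N.subgroupOf Y).Normal := (Subgroup.normal_subgroupOf_iff hNY).2
      fun h g hh hg => (Subgroup.mem_normalizer_iff.1 (hn hg) h).1 hh
    refine ⟨n, hpn, ?_⟩
    have h3 : (QuotientGroup.mk (⟨x, hx⟩ ^ n : Y) : Y ⧸ N.subgroupOf Y) = 1 := by
      rw [QuotientGroup.mk_pow]
      exact pow_card_eq_one'
    rw [QuotientGroup.eq_one_iff, Subgroup.mem_subgroupOf] at h3
    exact h3
  have hmain := lfM (p := p) hNY hn hf hfi hff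
  have hset : (prs N Y).filter (fun z => Prm p N z.1)
      = (Finset.univ.filter (fun y : A => y ∈ Y)) ×ˢ (Finset.univ.filter (fun y : A => y ∈ Y)) := by
    ext t
    rw [Finset.mem_filter, mem_prs, Finset.mem_product, Finset.mem_filter, Finset.mem_filter]
    constructor
    · rintro ⟨⟨ha, hb, _⟩, _⟩
      exact ⟨⟨Finset.mem_univ _, ha⟩, Finset.mem_univ _, hb⟩
    · rintro ⟨⟨_, ha⟩, _, hb⟩
      exact ⟨⟨ha, hb, hcom _ ha _ hb⟩, hprm _ ha⟩
  have hval : ∀ t ∈ (Finset.univ.filter (fun y : A => y ∈ Y)) ×ˢ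
      (Finset.univ.filter (fun y : A => y ∈ Y)),
      ∑ᶠ c : IrX N f, WittVector.teichmuller p (omX N f c t.1 t.2)
        = ((Nat.card {c : IrX N f // Fx N f t.1 c ∧ Fx N f t.2 c} : ℕ) : WittVector p k) := by
    intro t ht
    rw [Finset.mem_product, Finset.mem_filter, Finset.mem_filter] at ht
    obtain ⟨⟨_, hx⟩, _, hy⟩ := ht
    obtain ⟨a, _, ha⟩ := h1 _ hx
    obtain ⟨b, _, hb⟩ := h1 _ hy
    have h3 : ∀ c : IrX N f, WittVector.teichmuller p (omX N f c t.1 t.2)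
        = if Fx N f t.1 c ∧ Fx N f t.2 c then 1 else 0 := by
      intro c
      split_ifs with h
      · rw [om_val hzn hn0 hznN c ha hb h.1 h.2]
        exact map_one (WittVector.teichmuller p)
      · have h4 : omX N f c t.1 t.2 = 0 := by
          by_contra h5
          obtain ⟨h6, h7, _⟩ := (om_ne_zero_iff (irr_iff.1 (Quotient.out c).irr) (hn hx)
            (hn hy)).1 h5
          exact h ⟨h6, h7⟩
        rw [h4]
        exact WittVector.teichmuller_zero p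
    rw [finsum_eq_sum_of_fintype, Finset.sum_congr rfl (fun c _ => h3 c), Finset.sum_boole]
    congr 1
    rw [Nat.card_eq_fintype_card, Fintype.card_subtype]
  rw [hset, Finset.sum_congr rfl hval, ← Nat.cast_sum, Finset.sum_product] at hmain
  have hmain' := wit_inj p hmain
  rw [sum_cos hNY hz h1 h2' (fun x => ∑ y ∈ Finset.univ.filter (fun y : A => y ∈ Y),
      Nat.card {c : IrX N f // Fx N f x c ∧ Fx N f y c}) (fun a _ y hy hya => by
        refine Finset.sum_congr rfl fun w _ => ?_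
        refine Nat.card_congr (Equiv.subtypeEquivRight fun c => ?_)
        rw [Fx.congr (hn hy) (Subgroup.pow_mem _ hzn a) hya]),
    Finset.sum_congr rfl (fun a _ => sum_cos hNY hz h1 h2'
      (fun y => Nat.card {c : IrX N f // Fx N f (z ^ a) c ∧ Fx N f y c}) (fun b _ y hy hyb => by
        refine Nat.card_congr (Equiv.subtypeEquivRight fun c => ?_)
        rw [Fx.congr (hn hy) (Subgroup.pow_mem _ hzn b) hyb])), ← Finset.smul_sum, smul_smul,
    smul_eq_mul] at hmain'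
  have hcard : Nat.card Y = Nat.card N * n := by
    have h3 := Subgroup.relIndex_mul_relIndex ⊥ N Y bot_le hNY
    rw [Subgroup.relIndex_bot_left, Subgroup.relIndex_bot_left] at h3
    exact h3.symm
  rw [hcard] at hmain'
  have hpos : 0 < Nat.card N * Nat.card N := Nat.mul_pos Nat.card_pos Nat.card_pos
  refine (Nat.eq_of_mul_eq_mul_left hpos ?_).symm
  rw [hmain']
  ring

end Pool.Agent.Lib.P0c8ca5.Kc
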