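import Mathlib

/-!
# J2: the Jordan totient (number of the pairs modulo `n` which generate)
-/

set_option autoImplicit false

namespace Pool.Agent.Lib.P0c8ca5.Kc

open Finset

/-- Jordan's totient `J₂` -/
def J2 (n : ℕ) : ℕ :=
  ((Finset.range n ×ˢ Finset.range n).filter (fun t => Nat.gcd (Nat.gcd t.1 t.2) n = 1)).card

theorem J2_zero : J2 0 = 0 := rfl

theorem J2_one : J2 1 = 1 := rfl

theorem J2_two : J2 2 = 3 := rfl

theorem J2_pos {n : ℕ} (hn : 0 < n) : 0 < J2 n := by
  unfold J2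
  rw [card_pos]
  rcases Nat.eq_or_lt_of_le (show 1 ≤ n from hn) with h | h
  · subst h
    exact ⟨(0, 0), by simp⟩
  · exact ⟨(0, 1), by simp [hn, h]⟩

/-- the number of the pairs with a given greatest common divisor -/
theorem card_gcd {m e : ℕ} (hm : 0 < m) (he : e ∣ m) :
    ((range m ×ˢ range m).filter (fun t : ℕ × ℕ => Nat.gcd (Nat.gcd t.1 t.2) m = e)).card =
      J2 (m / e) := by
  obtain ⟨d, rfl⟩ := he
  have he0 : 0 < e := Nat.pos_of_mul_pos_right hm
  have hd0 : 0 < d := Nat.pos_of_mul_pos_left hm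
  rw [Nat.mul_div_cancel_left d he0]
  unfold J2
  symm
  refine card_bij (fun t _ => (e * t.1, e * t.2)) ?_ ?_ ?_
  · rintro ⟨a, b⟩ h
    simp only [mem_filter, mem_product, mem_range] at h ⊢
    obtain ⟨⟨h1, h2⟩, h3⟩ := h
    refine ⟨⟨Nat.mul_lt_mul_of_pos_left h1 he0, Nat.mul_lt_mul_of_pos_left h2 he0⟩, ?_⟩
    rw [Nat.gcd_mul_left, Nat.gcd_mul_left, h3, mul_one]
  · rintro ⟨a, b⟩ _ ⟨a', b'⟩ _ h
    simp only [Prod.mk.injEq] at h ⊢
    exact ⟨Nat.eq_of_mul_eq_mul_left he0 h.1, Nat.eq_of_mul_eq_mul_left he0 h.2⟩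
  · rintro ⟨a, b⟩ h
    simp only [mem_filter, mem_product, mem_range] at h
    obtain ⟨⟨h1, h2⟩, h3⟩ := h
    have h4 : e ∣ Nat.gcd a b := by
      rw [← h3]
      exact Nat.gcd_dvd_left _ _
    obtain ⟨a', rfl⟩ := h4.trans (Nat.gcd_dvd_left a b)
    obtain ⟨b', rfl⟩ := h4.trans (Nat.gcd_dvd_right (e * a') b)
    refine ⟨(a', b'), ?_, rfl⟩
    simp only [mem_filter, mem_product, mem_range]
    refine ⟨⟨Nat.lt_of_mul_lt_mul_left h1, Nat.lt_of_mul_lt_mul_left h2⟩, ?_⟩
    rw [Nat.gcd_mul_left, Nat.gcd_mul_left] at h3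
    exact Nat.eq_of_mul_eq_mul_left he0 (by rw [h3, mul_one])

/-- **sums over the pairs modulo `m` of a function of the greatest common divisor** -/
theorem sum_gcd {M : Type*} [AddCommMonoid M] (ψ : ℕ → M) {m : ℕ} (hm : 0 < m) :
    ∑ t ∈ range m ×ˢ range m, ψ (Nat.gcd (Nat.gcd t.1 t.2) m)
      = ∑ e ∈ m.divisors, J2 (m / e) • ψ e := by
  have h1 : ∀ t ∈ range m ×ˢ range m, Nat.gcd (Nat.gcd t.1 t.2) m ∈ m.divisors := by
    intro t _
    rw [Nat.mem_divisors]
    exact ⟨Nat.gcd_dvd_right _ _, hm.ne'⟩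
  rw [← sum_fiberwise_of_maps_to h1]
  refine sum_congr rfl fun e he => ?_
  rw [← card_gcd hm (Nat.mem_divisors.1 he).1, ← sum_const]
  refine sum_congr rfl fun t ht => ?_
  rw [(mem_filter.1 ht).2]

theorem sum_J2 {m : ℕ} (hm : 0 < m) : ∑ d ∈ m.divisors, J2 d = m ^ 2 := by
  have h1 := sum_gcd (fun _ => (1 : ℕ)) hm
  simp only [sum_const, card_product, card_range, smul_eq_mul, mul_one] at h1
  rw [← Nat.sum_div_divisors m J2, ← h1, sq]

/-- `J2` as an arithmetic function -/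
def J2a : ArithmeticFunction ℤ := ⟨fun n => (J2 n : ℤ), by simp [J2_zero]⟩

theorem J2a_mul_zeta :
    J2a * (ArithmeticFunction.zeta : ArithmeticFunction ℕ) =
      ((ArithmeticFunction.pow 2 : ArithmeticFunction ℕ) : ArithmeticFunction ℤ) := by
  ext n
  rw [ArithmeticFunction.coe_mul_zeta_apply, ArithmeticFunction.natCoe_apply,
    ArithmeticFunction.pow_apply]
  rcases Nat.eq_zero_or_pos n with rfl | hn
  · simp
  · rw [if_neg (by omega), ← sum_J2 hn]
    push_cast
    rfl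

theorem J2a_mult : J2a.IsMultiplicative := by
  have h1 : J2a = ((ArithmeticFunction.pow 2 : ArithmeticFunction ℕ) : ArithmeticFunction ℤ) *
      ArithmeticFunction.moebius := by
    rw [← J2a_mul_zeta, mul_assoc, ArithmeticFunction.coe_zeta_mul_moebius, mul_one]
  rw [h1]
  exact (ArithmeticFunction.isMultiplicative_pow.natCast).mul
    ArithmeticFunction.isMultiplicative_moebius

theorem J2_mul {m n : ℕ} (h : Nat.Coprime m n) : J2 (m * n) = J2 m * J2 n := by
  have h1 := J2a_mult.map_mul_of_coprime h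
  have h2 : ((J2 (m * n) : ℕ) : ℤ) = (J2 m : ℤ) * (J2 n : ℤ) := h1
  exact_mod_cast h2

theorem J2_prime_pow {q : ℕ} (hq : q.Prime) (j : ℕ) :
    J2 (q ^ (j + 1)) + q ^ (2 * j) = q ^ (2 * (j + 1)) := by
  have h1 := sum_J2 (m := q ^ (j + 1)) (pow_pos hq.pos _)
  have h2 := sum_J2 (m := q ^ j) (pow_pos hq.pos _)
  rw [Nat.sum_divisors_prime_pow hq] at h1 h2
  rw [sum_range_succ, h2] at h1
  rw [← pow_mul, ← pow_mul, mul_comm j 2, mul_comm (j + 1) 2] at h1
  omega

theorem J2_ndvd {p n : ℕ} (hp : p.Prime) (h5 : 5 ≤ p) (hn : n ∣ p - 1) : ¬ p ∣ J2 n := by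
  have hn0 : n ≠ 0 := by
    rintro rfl
    rw [zero_dvd_iff] at hn
    omega
  have key : ∀ n : ℕ, n ≠ 0 → n ∣ p - 1 → ¬ p ∣ J2 n := by
    intro n
    induction n using Nat.recOnPosPrimePosCoprime with
    | zero => intro h; exact absurd rfl h
    | one =>
      intro _ _ h
      rw [J2_one] at h
      exact hp.one_lt.ne' (Nat.dvd_one.1 h)
    | prime_pow q j hq hj =>
      intro _ hd h
      obtain ⟨i, rfl⟩ : ∃ i, j = i + 1 := ⟨j - 1, by omega⟩
      have hqd : q ∣ p - 1 := (dvd_pow_self q (by omega)).trans hd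
      have hle : q ≤ p - 1 := Nat.le_of_dvd (by omega) hqd
      have h1 := J2_prime_pow hq i
      have h2 : J2 (q ^ (i + 1)) = q ^ (2 * i) * ((q - 1) * (q + 1)) := by
        obtain ⟨r, rfl⟩ : ∃ r, q = r + 1 := ⟨q - 1, by have := hq.pos; omega⟩
        have h3 : (r + 1) ^ (2 * (i + 1)) = (r + 1) ^ (2 * i) * ((r + 1) * (r + 1)) := by
          rw [show 2 * (i + 1) = 2 * i + 1 + 1 by ring, pow_succ, pow_succ, mul_assoc]
        rw [h3] at h1
        rw [Nat.add_sub_cancel]
        have h4 : (r + 1) ^ (2 * i) * ((r + 1) * (r + 1)) =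
            (r + 1) ^ (2 * i) * (r * (r + 1 + 1)) + (r + 1) ^ (2 * i) := by ring
        omega
      rw [h2] at h
      rcases hp.dvd_mul.1 h with h3 | h3
      · have h4 := hp.dvd_of_dvd_pow h3
        have h5 := Nat.le_of_dvd hq.pos h4
        omega
      · rcases hp.dvd_mul.1 h3 with h4 | h4
        · have h5 := Nat.le_of_dvd (by have := hq.two_le; omega) h4
          omega
        · have h5' := Nat.le_of_dvd (by omega) h4
          have h6 : q = p - 1 := by omega
          have h7 : ¬ 2 ∣ p := by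
            intro h8
            have h9 := (Nat.prime_dvd_prime_iff_eq Nat.prime_two hp).1 h8
            omega
          have h8 : 2 ∣ q := by omega
          have h9 := (Nat.prime_dvd_prime_iff_eq Nat.prime_two hq).1 h8
          omega
    | coprime a b ha hb hab iha ihb =>
      intro _ hd h
      rw [J2_mul hab] at h
      rcases hp.dvd_mul.1 h with h1 | h1
      · exact iha (by omega) ((dvd_mul_right a b).trans hd) h1
      · exact ihb (by omega) ((dvd_mul_left b a).trans hd) h1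
  exact key n hn0 hn

end Pool.Agent.Lib.P0c8ca5.Kc
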