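import Mathlib
import Pool.Agent.Lib.P0c8ca5Kc.CB
import Pool.Agent.Lib.P0c8ca5Kc.J2

/-!
# Kc.CC: two cyclic extensions with the same quotient

`N` is normal in `Y` with cyclic quotient of order `n` prime to `p`, `Y = N (M ∩ Y)`, `f` and `f'` are idempotents of `kN` and of
`k[M ∩ N]`, invariant under `Y` and `M ∩ Y`. If the numbers of the irreducible representations of `Z` in `f` and of `M ∩ Z` in
`f'` agree for `N ≤ Z < Y`, are congruent modulo `q` for `Z = Y`, and are less than `p` for `Z = N`, they agree for `Z = Y`,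
provided that `q ∣ J2 n * d` and `|d| < p` imply `d = 0` (`cyc_cmp`).
-/

set_option autoImplicit false
set_option linter.unusedSectionVars false

namespace Pool.Agent.Lib.P0c8ca5.Kc

open MonoidAlgebra Ps Bq Zz Gg Kq

variable {p : ℕ} {k : Type*} [Field k] {A : Type*} [Group A]

/-- the number of classes fixed by `x` -/
noncomputable def fxn (N : Subgroup A) (f : MonoidAlgebra k A) (x : A) : ℕ :=
  Nat.card {c : IrX N f // Fx N f x c}

theorem fxn_le [Finite A] (N : Subgroup A) (f : MonoidAlgebra k A) (x : A) :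
    fxn N f x ≤ Nat.card (IrX N f) :=
  Nat.card_le_card_of_injective _ Subtype.val_injective

/-- the classes fixed by two powers -/
theorem fx_two [Finite A] {N : Subgroup A} {f : MonoidAlgebra k A} {z : A}
    (hz : z ∈ Subgroup.normalizer (N : Set A)) {n : ℕ} (hn0 : 0 < n) (hn : z ^ n ∈ N) (a b : ℕ) :
    Nat.card {c : IrX N f // Fx N f (z ^ a) c ∧ Fx N f (z ^ b) c}
      = fxn N f (z ^ Nat.gcd (Nat.gcd a b) n) := by
  refine Nat.card_congr (Equiv.subtypeEquivRight fun c => ?_)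
  obtain ⟨d, hd0, _, hd⟩ := exists_dvd hz hn0 hn c
  rw [hd, hd, hd, Nat.dvd_gcd_iff, Nat.dvd_gcd_iff]
  have h1 : d ∣ n := (hd n).1 (Fx.of_mem hn)
  tauto

/-- the subgroup generated by `N` and `z ^ d` -/
def Zd (N Y : Subgroup A) (hNY : N ≤ Y) (z : A) (hz : z ∈ Y)
    (hn : Y ≤ Subgroup.normalizer (N : Set A)) (n : ℕ) (hn0 : 0 < n) (hzn : z ^ n ∈ N) (d : ℕ) :
    Subgroup A where
  carrier := {y | ∃ a : ℕ, y * (z ^ (d * a))⁻¹ ∈ N}
  one_mem' := ⟨0, by rw [mul_zero, pow_zero, inv_one, mul_one]; exact N.one_mem⟩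
  mul_mem' := by
    rintro x y ⟨a, ha⟩ ⟨b, hb⟩
    refine ⟨a + b, ?_⟩
    have h1 := (Subgroup.mem_normalizer_iff.1 (hn (Y.pow_mem hz (d * a))) _).1 hb
    have h2 := N.mul_mem ha h1
    have e : x * (z ^ (d * a))⁻¹ * (z ^ (d * a) * (y * (z ^ (d * b))⁻¹) * (z ^ (d * a))⁻¹)
        = x * y * (z ^ (d * (a + b)))⁻¹ := by
      rw [mul_add, add_comm, pow_add]
      group
    rwa [e] at h2
  inv_mem' := by
    rintro x ⟨a, ha⟩
    refine ⟨a * (n - 1), ?_⟩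
    have h1 := (Subgroup.mem_normalizer_iff.1 (hn (Y.inv_mem (Y.pow_mem hz (d * a)))) _).1
      (N.inv_mem ha)
    have h2 : z ^ (d * (a * (n - 1))) * z ^ (d * a) ∈ N := by
      rw [← pow_add]
      have e : d * (a * (n - 1)) + d * a = n * (d * a) := by
        obtain ⟨m, rfl⟩ := Nat.exists_eq_add_of_lt hn0
        rw [zero_add, Nat.add_sub_cancel]
        ring
      rw [e, pow_mul]
      exact N.pow_mem hzn _
    have h3 := N.mul_mem h1 (N.inv_mem h2)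
    generalize z ^ (d * (a * (n - 1))) = u at h3 ⊢
    generalize z ^ (d * a) = w at h3
    have e : w⁻¹ * (x * w⁻¹)⁻¹ * w⁻¹⁻¹ * (u * w)⁻¹ = x⁻¹ * u⁻¹ := by group
    rwa [e] at h3

section
variable {N Y : Subgroup A} {hNY : N ≤ Y} {z : A} {hz : z ∈ Y}
  {hn : Y ≤ Subgroup.normalizer (N : Set A)} {n : ℕ} {hn0 : 0 < n} {hzn : z ^ n ∈ N} {d : ℕ}

theorem mem_Zd {y : A} : y ∈ Zd N Y hNY z hz hn n hn0 hzn d ↔ ∃ a : ℕ, y * (z ^ (d * a))⁻¹ ∈ N :=
  Iff.rfl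

theorem le_Zd : N ≤ Zd N Y hNY z hz hn n hn0 hzn d := by
  intro y hy
  exact ⟨0, by rw [mul_zero, pow_zero, inv_one, mul_one]; exact hy⟩

theorem Zd_le : Zd N Y hNY z hz hn n hn0 hzn d ≤ Y := by
  rintro y ⟨a, ha⟩
  have h1 := Y.mul_mem (hNY ha) (Y.pow_mem hz (d * a))
  rwa [inv_mul_cancel_right] at h1

theorem pow_mem_Zd : z ^ d ∈ Zd N Y hNY z hz hn n hn0 hzn d :=
  ⟨1, by rw [mul_one, mul_inv_cancel]; exact N.one_mem⟩

theorem relIndex_of [Finite A] {N Z : Subgroup A} (hNZ : N ≤ Z)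
    (hn : Z ≤ Subgroup.normalizer (N : Set A)) {w : A} (hw : w ∈ Z)
    (hcyc : ∀ y ∈ Z, ∃ a : ℕ, y * (w ^ a)⁻¹ ∈ N) {m : ℕ} (hm : ∀ a, w ^ a ∈ N ↔ m ∣ a) :
    N.relIndex Z = m := by
  obtain ⟨_, h⟩ := exists_cos hNZ hn hw hcyc
  apply Nat.dvd_antisymm
  · exact (h m).1 ((hm m).2 dvd_rfl)
  · exact (hm _).1 ((h _).2 dvd_rfl)

end

/-- the count for the subgroup generated by `N` and `z ^ d` -/
theorem card_Zd [Fact p.Prime] [CharP k p] [IsAlgClosed k] [Finite A] {N Z : Subgroup A}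
    (hNZ : N ≤ Z) (hn : Z ≤ Subgroup.normalizer (N : Set A)) {f : MonoidAlgebra k A}
    (hf : SuppIn N f) (hfi : InvBy Z f) (hff : f * f = f) {z : A}
    (hzn : z ∈ Subgroup.normalizer (N : Set A)) {d m : ℕ} (hm0 : 0 < m) (hz : z ^ d ∈ Z)
    (hcyc : ∀ y ∈ Z, ∃ a : ℕ, y * (z ^ (d * a))⁻¹ ∈ N) (hm : ∀ a, z ^ a ∈ N ↔ d * m ∣ a)
    (hpm : ¬ p ∣ m) (hd : 0 < d) :
    m * Nat.card (IrX Z f) = ∑ e ∈ m.divisors, J2 (m / e) * fxn N f (z ^ (d * e)) := by
  classical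
  have := Fintype.ofFinite A
  have hcyc' : ∀ y ∈ Z, ∃ a : ℕ, y * ((z ^ d) ^ a)⁻¹ ∈ N := by
    intro y hy
    obtain ⟨a, ha⟩ := hcyc y hy
    exact ⟨a, by rw [← pow_mul]; exact ha⟩
  have hm' : ∀ a, (z ^ d) ^ a ∈ N ↔ m ∣ a := by
    intro a
    rw [← pow_mul, hm, Nat.mul_dvd_mul_iff_left hd]
  have hidx := relIndex_of hNZ hn hz hcyc' hm'
  have h1 := cyc_card (p := p) hNZ hn hf hfi hff hz hcyc' (by rw [hidx]; exact hpm)
  rw [hidx] at h1
  have h2 := sum_gcd (fun e => fxn N f (z ^ (d * e))) hm0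
  simp only [smul_eq_mul] at h2
  rw [h1, ← h2, Finset.sum_product]
  refine Finset.sum_congr rfl fun a _ => Finset.sum_congr rfl fun b _ => ?_
  have hznm : z ^ (d * m) ∈ N := (hm _).2 dvd_rfl
  rw [← pow_mul, ← pow_mul, fx_two hzn (Nat.mul_pos hd hm0) hznm, Nat.gcd_mul_left,
    Nat.gcd_mul_left]

theorem cyc_cmp [Fact p.Prime] [CharP k p] [IsAlgClosed k] [Finite A] {N Y M : Subgroup A}
    (hNY : N ≤ Y) (hn : Y ≤ Subgroup.normalizer (N : Set A)) {f f' : MonoidAlgebra k A}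
    (hf : SuppIn N f) (hfi : InvBy Y f) (hff : f * f = f)
    (hf' : SuppIn (M ⊓ N) f') (hfi' : InvBy (M ⊓ Y) f') (hff' : f' * f' = f') {z : A}
    (hz : z ∈ Y) (hzM : z ∈ M) (hcyc : ∀ y ∈ Y, ∃ a : ℕ, y * (z ^ a)⁻¹ ∈ N)
    (hpn : ¬ p ∣ N.relIndex Y)
    (h1 : ∀ Z, N ≤ Z → Z ≤ Y → Z ≠ Y → Nat.card (IrX Z f) = Nat.card (IrX (M ⊓ Z) f'))
    {q : ℤ} (h2 : q ∣ (Nat.card (IrX Y f) : ℤ) - (Nat.card (IrX (M ⊓ Y) f') : ℤ))
    (h3 : Nat.card (IrX N f) < p) (h3' : Nat.card (IrX (M ⊓ N) f') < p)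
    (h4 : ∀ d : ℤ, |d| < p → q ∣ (J2 (N.relIndex Y) : ℤ) * d → d = 0) :
    Nat.card (IrX Y f) = Nat.card (IrX (M ⊓ Y) f') := by
  classical
  obtain ⟨_, hord⟩ := exists_cos hNY hn hz hcyc
  set n := N.relIndex Y with hnn
  have hn0 : 0 < n := Nat.pos_of_ne_zero fun h => hpn (by rw [h]; exact dvd_zero _)
  have hzn : z ^ n ∈ N := (hord n).2 dvd_rfl
  have hnz := hn hz
  have hMn : ∀ y ∈ M ⊓ Y, y ∈ Subgroup.normalizer ((M ⊓ N : Subgroup A) : Set A) := by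
    intro y hy
    rw [Subgroup.mem_normalizer_iff]
    intro w
    have h5 := Subgroup.mem_normalizer_iff.1 (hn hy.2) w
    change w ∈ M ∧ w ∈ N ↔ y * w * y⁻¹ ∈ M ∧ y * w * y⁻¹ ∈ N
    rw [← h5]
    constructor
    · rintro ⟨ha, hb⟩
      exact ⟨M.mul_mem (M.mul_mem hy.1 ha) (M.inv_mem hy.1), hb⟩
    · rintro ⟨ha, hb⟩
      refine ⟨?_, hb⟩
      have h6 := M.mul_mem (M.mul_mem (M.inv_mem hy.1) ha) hy.1
      have e : y⁻¹ * (y * w * y⁻¹) * y = w := by group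
      rwa [e] at h6
  -- the counts
  have hA : ∀ d m : ℕ, 0 < d → d * m = n → m * Nat.card (IrX (Zd N Y hNY z hz hn n hn0 hzn d) f)
      = ∑ e ∈ m.divisors, J2 (m / e) * fxn N f (z ^ (d * e)) := by
    intro d m hd hdm
    have hm0 : 0 < m := Nat.pos_of_ne_zero (by rintro rfl; omega)
    refine card_Zd (p := p) le_Zd (Zd_le.trans hn) hf (hfi.mono Zd_le) hff hnz hm0 pow_mem_Zd
      (fun y hy => mem_Zd.1 hy) (fun a => by rw [hord a, hdm]) ?_ hd
    intro h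
    exact hpn (h.trans ⟨d, by rw [← hdm, mul_comm]⟩)
  have hB : ∀ d m : ℕ, 0 < d → d * m = n →
      m * Nat.card (IrX (M ⊓ Zd N Y hNY z hz hn n hn0 hzn d) f')
      = ∑ e ∈ m.divisors, J2 (m / e) * fxn (M ⊓ N) f' (z ^ (d * e)) := by
    intro d m hd hdm
    have hm0 : 0 < m := Nat.pos_of_ne_zero (by rintro rfl; omega)
    refine card_Zd (p := p) (inf_le_inf_left M le_Zd) (fun y hy => hMn y ⟨hy.1, Zd_le hy.2⟩) hf'
      (hfi'.mono (inf_le_inf_left M Zd_le)) hff' (hMn z ⟨hzM, hz⟩) hm0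
      ⟨M.pow_mem hzM d, pow_mem_Zd⟩ (fun y hy => ?_) (fun a => ?_) ?_ hd
    · obtain ⟨a, ha⟩ := mem_Zd.1 hy.2
      exact ⟨a, M.mul_mem hy.1 (M.inv_mem (M.pow_mem hzM _)), ha⟩
    · rw [hdm, ← hord a]
      exact ⟨fun h => h.2, fun h => ⟨M.pow_mem hzM a, h⟩⟩
    · intro h
      exact hpn (h.trans ⟨d, by rw [← hdm, mul_comm]⟩)
  have hY : Zd N Y hNY z hz hn n hn0 hzn 1 = Y := by
    refine le_antisymm Zd_le fun y hy => ?_
    obtain ⟨a, ha⟩ := hcyc y hy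
    exact ⟨a, by rw [one_mul]; exact ha⟩
  -- the fixed point numbers agree
  have key : ∀ m d : ℕ, 0 < d → d * m = n → d ≠ 1 →
      fxn N f (z ^ d) = fxn (M ⊓ N) f' (z ^ d) := by
    intro m
    induction m using Nat.strong_induction_on with
    | _ m ih =>
      intro d hd hdm hd1
      have hm0 : 0 < m := Nat.pos_of_ne_zero (by rintro rfl; omega)
      have hne : Zd N Y hNY z hz hn n hn0 hzn d ≠ Y := by
        intro h
        have h5 : z ∈ Zd N Y hNY z hz hn n hn0 hzn d := by rw [h]; exact hz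
        obtain ⟨a, ha⟩ := mem_Zd.1 h5
        have h6 : z ^ (1 + n * (d * a) - d * a) ∈ N := by
          have e : z ^ (1 + n * (d * a) - d * a) = z ^ (1 + n * (d * a)) * (z ^ (d * a))⁻¹ :=
            pow_sub z ((Nat.le_mul_of_pos_left (d * a) hn0).trans (Nat.le_add_left _ _))
          rw [e, add_comm, pow_add, pow_one, mul_assoc]
          refine N.mul_mem ?_ ha
          rw [pow_mul]
          exact N.pow_mem hzn _
        rw [hord] at h6
        have h7 : d ∣ n := ⟨m, hdm.symm⟩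
        have h8 : d ∣ 1 + n * (d * a) - d * a := h7.trans h6
        have h9 : d ∣ 1 := by
          have e1 : d ∣ n * (d * a) := dvd_mul_of_dvd_right (dvd_mul_right _ _) _
          have e2 : d ∣ d * a := dvd_mul_right _ _
          have e3 : d * a ≤ n * (d * a) := Nat.le_mul_of_pos_left _ hn0
          have e4 : 1 + n * (d * a) - d * a = 1 + (n * (d * a) - d * a) := by omega
          rw [e4] at h8
          exact (Nat.dvd_add_left (Nat.dvd_sub e1 e2)).1 h8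
        exact hd1 (Nat.dvd_one.1 h9)
      have h5 := hA d m hd hdm
      rw [h1 _ le_Zd Zd_le hne, hB d m hd hdm] at h5
      have hmem : (1 : ℕ) ∈ m.divisors := Nat.mem_divisors.2 ⟨one_dvd _, hm0.ne'⟩
      rw [← Finset.add_sum_erase _ _ hmem, ← Finset.add_sum_erase _ _ hmem,
        Finset.sum_congr rfl (g := fun e => J2 (m / e) * fxn N f (z ^ (d * e))) (fun e he => ?_)]
        at h5
      · have h6 := Nat.add_right_cancel h5
        rw [Nat.div_one, mul_one] at h6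
        exact (Nat.eq_of_mul_eq_mul_left (J2_pos hm0) h6).symm
      · rw [Finset.mem_erase, Nat.mem_divisors] at he
        obtain ⟨he1, ⟨c, hc⟩, _⟩ := he
        have he0 : 0 < e := Nat.pos_of_ne_zero (by rintro rfl; omega)
        have hc0 : 0 < c := Nat.pos_of_ne_zero (by rintro rfl; omega)
        rw [ih c (by rw [hc]; nlinarith [show 2 ≤ e by omega]) (d * e) (Nat.mul_pos hd he0)
          (by rw [mul_assoc, ← hc, hdm]) (by
            intro h
            exact hd1 (Nat.eq_one_of_mul_eq_one_right h))]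
  have h5 := hA 1 n one_pos (one_mul n)
  have h6 := hB 1 n one_pos (one_mul n)
  rw [hY] at h5 h6
  have hmem : (1 : ℕ) ∈ n.divisors := Nat.mem_divisors.2 ⟨one_dvd _, hn0.ne'⟩
  rw [← Finset.add_sum_erase _ _ hmem, Nat.div_one, mul_one] at h5
  rw [← Finset.add_sum_erase _ _ hmem, Nat.div_one, mul_one] at h6
  have h7 : ∑ e ∈ n.divisors.erase 1, J2 (n / e) * fxn N f (z ^ (1 * e))
      = ∑ e ∈ n.divisors.erase 1, J2 (n / e) * fxn (M ⊓ N) f' (z ^ (1 * e)) := by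
    refine Finset.sum_congr rfl fun e he => ?_
    rw [Finset.mem_erase, Nat.mem_divisors] at he
    obtain ⟨he1, ⟨c, hc⟩, _⟩ := he
    have he0 : 0 < e := Nat.pos_of_ne_zero (by rintro rfl; omega)
    rw [one_mul, key c e he0 hc.symm he1]
  rw [h7] at h5
  -- the difference
  have h8 : (n : ℤ) * ((Nat.card (IrX Y f) : ℤ) - (Nat.card (IrX (M ⊓ Y) f') : ℤ))
      = (J2 n : ℤ) * ((fxn N f (z ^ 1) : ℤ) - (fxn (M ⊓ N) f' (z ^ 1) : ℤ)) := by
    have e5 : (n : ℤ) * (Nat.card (IrX Y f) : ℤ) = (J2 n : ℤ) * (fxn N f (z ^ 1) : ℤ)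
        + ((∑ e ∈ n.divisors.erase 1, J2 (n / e) * fxn (M ⊓ N) f' (z ^ (1 * e)) : ℕ) : ℤ) := by
      exact_mod_cast h5
    have e6 : (n : ℤ) * (Nat.card (IrX (M ⊓ Y) f') : ℤ)
        = (J2 n : ℤ) * (fxn (M ⊓ N) f' (z ^ 1) : ℤ)
        + ((∑ e ∈ n.divisors.erase 1, J2 (n / e) * fxn (M ⊓ N) f' (z ^ (1 * e)) : ℕ) : ℤ) := by
      exact_mod_cast h6
    rw [mul_sub, mul_sub, e5, e6]
    ring
  have h9 : (fxn N f (z ^ 1) : ℤ) - (fxn (M ⊓ N) f' (z ^ 1) : ℤ) = 0 := by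
    refine h4 _ ?_ ?_
    · have e1 := fxn_le N f (z ^ 1)
      have e2 := fxn_le (M ⊓ N) f' (z ^ 1)
      rw [abs_lt]
      constructor <;> omega
    · rw [← h8]
      exact h2.mul_left _
  rw [h9, mul_zero] at h8
  rcases mul_eq_zero.1 h8 with h10 | h10
  · exact absurd (by exact_mod_cast h10) hn0.ne'
  · have h11 := sub_eq_zero.1 h10
    exact_mod_cast h11

end Pool.Agent.Lib.P0c8ca5.Kc
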