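import Mathlib
import Pool.Agent.Lib.P0c8ca5Nc.CL
import Pool.Agent.Lib.P0c8ca5P.FrH
import Pool.Agent.Lib.P0c8ca5Kk.Kg

/-!
# Kc.FR: Fong-Reynolds for the centralizer of a normal p-subgroup of the defect group

`R ≤ D` is normal in `A`, `c` is the block of `C(R)` below `(D, f)`, `T` its stabilizer in `A`.

* `exists_stab_full`: `c` is a block of `T` with the defect group `D` and the inertial group `St D f`, `T = C(R) St D f`,
  `l(b) = l(T, c)` and `kap D b = l(N_T(D), Br_D c)`; `exists_stab`: a part of it.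
-/

set_option autoImplicit false
set_option linter.unusedSectionVars false

namespace Pool.Agent.Lib.P0c8ca5.Kc

open MonoidAlgebra Bq Ex Kq Nc

section
variable {p : ℕ} [Fact p.Prime] {k : Type*} [Field k] [IsAlgClosed k] [CharP k p]
  {A : Type*} [Group A] [Fintype A] {b f : MonoidAlgebra k A} {D : Subgroup A}

theorem exists_stab_full (hp2 : p ≠ 2) (h : Root p b D f) {R : Subgroup A} (hR : R ≤ D)
    (hn : Subgroup.normalizer (R : Set A) = ⊤) :
    ∃ (T : Subgroup A) (c : MonoidAlgebra k A), CD R ≤ T ∧ IsBlock (CD R) c ∧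
      resS (CD R : Set A) b * c = c ∧ IsBlock T c ∧
      (∀ t ∈ T, cj t c = c) ∧ resS (CD D : Set A) c * f = f ∧ IsDefectGroup p T c D ∧
      St D f ≤ T ∧ (∀ t ∈ T, ∃ g ∈ CD R, ∃ s ∈ St D f, t = g * s) ∧
      Nat.card (IrX (⊤ : Subgroup A) b) = Nat.card (IrX T c) ∧
      kap D b = Nat.card (IrX (Subgroup.normalizer (D : Set A) ⊓ T)
        (resS (CD D : Set A) c)) ∧ (T = ⊤ → c = b) := by
  classical
  obtain ⟨i, hs⟩ := exists_src h
  have hE : ¬ p ∣ eN D f := Ku.ndvd h
  have hDp := h.dfg.isPGroup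
  have hRp := hDp.to_le hR
  obtain ⟨c, hc⟩ := exists_lb hs hR
  have hbel : Bel D f R c 1 := bel_one hs hR hc
  have hcf : resS (CD D : Set A) c * f = f := Lb.f_mul hs hR hc
  have hbc' : resS (CD R : Set A) b * c = c := Lb.b_mul hs hR hc
  have hbc : b * c = c := by
    rwa [resS_self hRp hn h.blk.mem h.blk.idem] at hbc'
  have hbc0 : b * c ≠ 0 := by
    rw [hbc]
    exact hc.blk.ne_zero
  have hmem : ∀ g, g ∈ stb ⊤ c ↔ cj g c = c := fun g =>
    ⟨fun hg => (mem_stb.1 hg).2, fun hg => mem_stb.2 ⟨Subgroup.mem_top g, hg⟩⟩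
  have hRn : ∀ g : A, g ∈ Subgroup.normalizer (R : Set A) := fun g => hn ▸ Subgroup.mem_top g
  have hNn : (CD R).Normal := Subgroup.normalizer_eq_top_iff.1 (by
    rw [eq_top_iff]
    exact fun g _ => mem_normalizer_centralizer (hRn g))
  have hRT : CD R ≤ stb ⊤ c := fun g hg => (hmem g).2 (invBy_iff_cj.1 hc.blk.invBy g hg)
  have hDR : D ≤ CD R := SrcAux.D_le_CQ hR h.com
  have hDT : D ≤ stb ⊤ c := hDR.trans hRT
  have hCDT : CD D ≤ stb ⊤ c := (Subgroup.centralizer_le hR).trans hRT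
  have hfix : ∀ t ∈ stb ⊤ c, cj t c = c := fun t ht => (hmem t).1 ht
  have hcT : InvBy (stb ⊤ c) c := invBy_iff_cj.2 hfix
  have hblk : IsBlock (stb ⊤ c) c := by
    have h1 := Fr.isBlock_stab (p := p) hNn h.blk hc.blk hbc0 hmem
    rwa [hbc] at h1
  have hSt : St D f ≤ stb ⊤ c := fun g hg =>
    (hmem g).2 ((fix_iff' hs hc.blk hbel (hRn g)).2 ⟨1, (CD R).one_mem, g, by
      rwa [cg_one], (one_mul g).symm⟩)
  refine ⟨stb ⊤ c, c, hRT, hc.blk, hbc', hblk, hfix, hcf, ?_, hSt, ?_, ?_, ?_, ?_⟩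
  · -- the defect group
    have h1 := Kk.KgAux.dfg_of (g := 1) h hRT (by rw [hn]; exact le_top) hblk hbc'
      (by rwa [cg_one]) (by
        rw [cg_one]
        intro h0
        rw [h0, zero_mul] at hcf
        exact h.fblk.ne_zero hcf.symm)
    rwa [cg_one] at h1
  · -- the stabilizer
    intro t ht
    obtain ⟨y, hy, s, hs', hx⟩ := (fix_iff' hs hc.blk hbel (hRn t)).1 (hfix t ht)
    rw [cg_one] at hs'
    exact ⟨y, hy, s, hs', hx⟩
  · -- the numbers of simple modules
    have := Fr.FrHAux.fin hNn hc.blk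
    have : Fintype (Fr.FrHAux.Cj c) := Fintype.ofFinite _
    have h2 := (Fr.FrHAux.fam hNn hc.blk).card_irr_mul h.blk (i := Fr.FrHAux.base c) hbc0
    rw [Fr.FrHAux.St_base hmem] at h2
    change Nat.card (IrX (⊤ : Subgroup A) b) = Nat.card (IrX (stb ⊤ c) (b * c)) at h2
    rwa [hbc] at h2
  · -- the local numbers
    rw [kap_St hp2 hs hE]
    have hst : St D f = stb (Subgroup.normalizer (D : Set A) ⊓ stb ⊤ c) f := by
      ext g
      rw [mem_St, mem_stb, Subgroup.mem_inf]
      exact ⟨fun hg => ⟨⟨hg.1, hSt (mem_St.2 hg)⟩, hg.2⟩, fun hg => ⟨hg.1.1, hg.2⟩⟩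
    rw [hst]
    symm
    have hcC : SuppIn (CD D) (resS (CD D : Set A) c) := resS_suppIn
    have hcI : InvBy (Subgroup.normalizer (D : Set A) ⊓ stb ⊤ c) (resS (CD D : Set A) c) :=
      JdAux.invBy_resS (hcT.mono inf_le_right) fun g hg x => Ku.NDAux.conj_CD_iff hg.1
    have hcc : resS (CD D : Set A) c * resS (CD D : Set A) c = resS (CD D : Set A) c := by
      rw [← resS_mul hDp (hcT.mono hDT) (hcT.mono hDT), hblk.idem]
    have hcom : ∀ e : MonoidAlgebra k A, IsBlock (CD D) e →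
        resS (CD D : Set A) c * e = e * resS (CD D : Set A) c := fun e he =>
      commute_of hcC he.invBy
    have hbi : InvBy D b := h.blk.invBy.mono le_top
    refine fong p (le_inf (Subgroup.centralizer_le_normalizer _) hCDT)
      (fun w hw => mem_normalizer_centralizer hw.1) hcC hcI hcc h.fblk
      (by rw [← hcom f h.fblk]; exact hcf) (f_one hp2 hs) ?_
    intro e he hec
    have hce : resS (CD D : Set A) c * e = e := by rw [hcom e he]; exact hec
    have hbe : resS (CD D : Set A) b * e = e := by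
      have h1 := resS_mul (p := p) hDp hbi (hcT.mono hDT)
      rw [hbc] at h1
      calc resS (CD D : Set A) b * e = resS (CD D : Set A) b * (resS (CD D : Set A) c * e) := by
            rw [hce]
        _ = resS (CD D : Set A) c * e := by rw [← mul_assoc, ← h1]
        _ = e := hce
    obtain ⟨g, hg⟩ := exists_bel hs hE hDp he hbe
    have hbf : Bel D f D f 1 := by
      obtain ⟨c', hc'⟩ := exists_lb hs (le_refl D)
      have h2 := bel_one hs (le_refl D) hc'
      rwa [lb_D hs hc'] at h2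
    have hgD : cg g D = D := by
      have h3 : Nat.card (cg g D) = Nat.card D := card_cg g D
      exact (Subgroup.eq_of_le_of_card_ge hg.1 h3.le).symm
    have h4 := hbf.cj g
    rw [mul_one, hgD] at h4
    have h3 : IsBlock (CD D) (cj g f) := by
      have h5 := blk_inv h.fblk g
      rwa [hgD] at h5
    have he' : e = cj g f := Bel.unique hs he h3 hg h4
    have hBR : Bel D f R c g := by
      refine ⟨by rwa [hgD], ?_⟩
      rw [hgD, ← he']
      exact hce
    have hgR : cg g⁻¹ R = R := cg_eq_self_iff.2 (hRn _)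
    have h5 : IsBlock (CD R) (cj g⁻¹ c) := by
      have h6 := blk_inv hc.blk g⁻¹
      rwa [hgR] at h6
    have h6 : cj g⁻¹ c = c := uniq hs hR h5 hc.blk hBR.inv_mul hcf
    refine ⟨g, ⟨cg_eq_self_iff.1 hgD, (hmem g).2 ?_⟩, he'⟩
    have h7 := congrArg (cj g) h6
    rw [cj_cj_inv] at h7
    exact h7.symm
  · intro hT
    rcases (hT ▸ hblk).eq_or_mul_eq_zero h.blk with h1 | h1
    · exact h1
    · exfalso
      apply hbc0
      rw [← SrcAux.central h.blk.mem c, h1]

theorem exists_stab (hp2 : p ≠ 2) (h : Root p b D f) {R : Subgroup A} (hR : R ≤ D)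
    (hn : Subgroup.normalizer (R : Set A) = ⊤) :
    ∃ (T : Subgroup A) (c : MonoidAlgebra k A), CD R ≤ T ∧ IsBlock (CD R) c ∧
      resS (CD R : Set A) b * c = c ∧ (∀ t ∈ T, cj t c = c) ∧ resS (CD D : Set A) c * f = f ∧
      (∀ t ∈ T, ∃ g ∈ CD R, ∃ s ∈ St D f, t = g * s) ∧
      Nat.card (IrX (⊤ : Subgroup A) b) = Nat.card (IrX T c) ∧
      kap D b = Nat.card (IrX (Subgroup.normalizer (D : Set A) ⊓ T)
        (resS (CD D : Set A) c)) ∧ (T = ⊤ → c = b) := by
  obtain ⟨T, c, h1, h2, h3, _, h5, h6, _, _, h9, h10, h11, h12⟩ := exists_stab_full hp2 h hR hn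
  exact ⟨T, c, h1, h2, h3, h5, h6, h9, h10, h11, h12⟩

end

end Pool.Agent.Lib.P0c8ca5.Kc
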