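import Mathlib
import Pool.Agent.Lib.P0c8ca5Kk.Km
import Pool.Agent.Lib.P0c8ca5Ex.ZKr

/-!
# Kc.RE: the inertial index and a regular element of large order

`eN_le_exp`: if `x ∈ D` has the trivial stabilizer in `E` and `x ^ (p ^ a) ≠ 1` then `|E| p ^ a ≤ |D|`: the elements
`α (x ^ (1 + p j))`, `α ∈ E`, `j < p ^ a`, are different.
-/

set_option autoImplicit false
set_option linter.unusedSectionVars false

namespace Pool.Agent.Lib.P0c8ca5.Kc

open MonoidAlgebra Bq Ex Kq Kk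

section
variable {T : Type*} [CommGroup T] [Fintype T] {p : ℕ}

/-- an automorphism of order prime to `p` which acts on `⟨x⟩` as `1` modulo `p` fixes `x` -/
theorem fix_pow (hp : p.Prime) (hT : IsPGroup p T) {γ : MulAut T} {n : ℕ} (hn : γ ^ n = 1)
    (hpn : ¬ p ∣ n) {x : T} {s : ℤ} (hs : γ x = x ^ s) (hs1 : (p : ℤ) ∣ s - 1) : γ x = x := by
  have hpf : Fact p.Prime := ⟨hp⟩
  by_contra hne
  set w : T := x⁻¹ * γ x with hw
  have hw1 : w ≠ 1 := fun h => hne (inv_mul_eq_one.1 h).symm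
  have hws : w = x ^ (s - 1) := by
    rw [hw, hs, zpow_sub_one, mul_comm]
  -- an element of order `p`
  obtain ⟨y, hy, hy1, hyp⟩ := Ku.exists_order (p := p) hT (H := Subgroup.zpowers w) (by
    intro h
    apply hw1
    rw [← Subgroup.mem_bot, ← h]
    exact Subgroup.mem_zpowers w)
  obtain ⟨c, hc⟩ := Subgroup.mem_zpowers_iff.1 hy
  have hyr : y ∈ (Ku.cm γ).range := ⟨x ^ c, by
    rw [Ku.cm_apply, map_zpow, ← hc, hw, mul_zpow, _root_.inv_zpow]⟩
  have hyf : γ y = y := by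
    have h1 : γ y = y ^ s := by
      rw [← hc, hws, ← zpow_mul, map_zpow, hs, ← zpow_mul, ← zpow_mul, mul_comm]
    obtain ⟨d, hd⟩ := hs1
    have h2 : s = p * d + 1 := by linarith
    rw [h1, h2, zpow_add, zpow_mul, zpow_natCast, hyp, one_zpow, one_mul, zpow_one]
  exact hy1 (Ku.fix_cm hp hT hn hpn hyr hyf)

/-- the count -/
theorem card_le_exp (hp : p.Prime) (hT : IsPGroup p T) {E : Subgroup (MulAut T)}
    (hE : ¬ p ∣ Nat.card E) {x : T} (hreg : ∀ α ∈ E, α x = x → α = 1) {a : ℕ}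
    (ha : x ^ p ^ a ≠ 1) : Nat.card E * p ^ a ≤ Nat.card T := by
  have hpf : Fact p.Prime := ⟨hp⟩
  obtain ⟨m, hm⟩ := (IsPGroup.iff_orderOf.1 hT) x
  have hma : a + 1 ≤ m := by
    by_contra hcon
    apply ha
    exact orderOf_dvd_iff_pow_eq_one.1 (by rw [hm]; exact pow_dvd_pow p (by omega))
  have hxm : x ^ p ^ m = 1 := by rw [← hm]; exact pow_orderOf_eq_one x
  have h1 : Nat.card E * p ^ a = Nat.card (E × Fin (p ^ a)) := by
    rw [Nat.card_prod, Nat.card_eq_fintype_card (α := Fin (p ^ a)), Fintype.card_fin]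
  rw [h1]
  refine Nat.card_le_card_of_injective
    (fun z : E × Fin (p ^ a) => (z.1 : MulAut T) (x ^ (1 + p * (z.2 : ℕ)))) ?_
  rintro ⟨α, j⟩ ⟨β, j'⟩ h
  have h2 : (α : MulAut T) (x ^ (1 + p * (j : ℕ))) = (β : MulAut T) (x ^ (1 + p * (j' : ℕ))) := h
  -- the automorphism `γ`
  set γ : E := β⁻¹ * α with hγ
  have h3 : (γ : MulAut T) (x ^ (1 + p * (j : ℕ))) = x ^ (1 + p * (j' : ℕ)) := by
    apply (β : MulAut T).injective
    rw [← h2, hγ, Subgroup.coe_mul, Subgroup.coe_inv]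
    exact ZKr.inv_mul_app _ _ _
  have hcop : IsCoprime ((1 : ℤ) + p * j) ((p : ℤ) ^ m) := by
    apply IsCoprime.pow_right
    exact ⟨1, -j, by ring⟩
  obtain ⟨u, v, huv⟩ := hcop
  have h4 : x = (x ^ (1 + p * (j : ℕ))) ^ u := by
    have h5 : x = x ^ (u * ((1 : ℤ) + p * j) + v * (p : ℤ) ^ m) := by rw [huv, zpow_one]
    conv_lhs => rw [h5]
    rw [zpow_add, mul_comm v, zpow_mul x ((p : ℤ) ^ m) v]
    have h6 : x ^ ((p : ℤ) ^ m) = 1 := by exact_mod_cast hxm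
    rw [h6, one_zpow, mul_one, mul_comm u, zpow_mul]
    congr 1
    exact_mod_cast zpow_natCast x (1 + p * (j : ℕ))
  have h5 : (γ : MulAut T) x = x ^ (((1 : ℤ) + p * j') * u) := by
    conv_lhs => rw [h4]
    rw [map_zpow, h3, zpow_mul]
    congr 1
    exact_mod_cast (zpow_natCast x (1 + p * (j' : ℕ))).symm
  have h6 : (p : ℤ) ∣ ((1 : ℤ) + p * j') * u - 1 := by
    obtain ⟨m', rfl⟩ : ∃ m', m = m' + 1 := ⟨m - 1, by omega⟩
    refine ⟨j' * u - u * j - v * (p : ℤ) ^ m', ?_⟩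
    rw [pow_succ] at huv
    linear_combination huv
  have hγE : (γ : MulAut T) ^ Nat.card E = 1 := ZKr.pow_E γ.2
  have h7 : (γ : MulAut T) = 1 := hreg γ γ.2 (fix_pow hp hT hγE hE h5 h6)
  have h8 : γ = 1 := Subtype.ext h7
  have h9 : α = β := (inv_mul_eq_one.1 h8).symm
  rw [h7, MulAut.one_apply, pow_eq_pow_iff_modEq, hm] at h3
  have hp0 := hp.pos
  have hlt : ∀ i : Fin (p ^ a), 1 + p * (i : ℕ) < p ^ m := by
    intro i
    have h10 : p ^ (a + 1) ≤ p ^ m := Nat.pow_le_pow_right hp0 hma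
    have h11 : p * ((i : ℕ) + 1) ≤ p * p ^ a := Nat.mul_le_mul_left p i.2
    have h12 : p ^ (a + 1) = p * p ^ a := by rw [pow_succ, mul_comm]
    have h13 := hp.one_lt
    rw [mul_add, mul_one] at h11
    omega
  have h10 := Nat.ModEq.eq_of_lt_of_lt h3 (hlt j) (hlt j')
  have h11 : (j : ℕ) = (j' : ℕ) := by
    have h12 : p * (j : ℕ) = p * (j' : ℕ) := by omega
    exact Nat.eq_of_mul_eq_mul_left hp0 h12
  rw [h9, Fin.ext h11]

end

section
variable {p : ℕ} [Fact p.Prime] {k : Type*} [Field k] [IsAlgClosed k] [CharP k p]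
  {A : Type*} [Group A] [Fintype A] {b f : MonoidAlgebra k A} {D : Subgroup A}

/-- **a regular element of large order** -/
theorem eN_le_exp (h : Root p b D f) {x : A} (hx : x ∈ D)
    (hreg : ∀ g ∈ St D f, g * x = x * g → g ∈ CD D) {a : ℕ} (ha : x ^ p ^ a ≠ 1) :
    eN D f * p ^ a ≤ Nat.card D := by
  classical
  let _ : CommGroup ↥D := cgrp D h.com
  have _ : Fintype ↥D := Fintype.ofFinite _
  have hp : p.Prime := Fact.out
  have hφ : Function.Injective (D.subtype : ↥D →* A) := Subtype.val_injective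
  have hrD : ∀ x, x ∈ D ↔ ∃ t, (D.subtype : ↥D →* A) t = x :=
    fun x => ⟨fun hx => ⟨⟨x, hx⟩, rfl⟩, by rintro ⟨t, rfl⟩; exact t.2⟩
  have hT : IsPGroup p ↥D := h.dfg.isPGroup
  have hcard := card_EG (f := f) hφ hrD
  have hE : ¬ p ∣ Nat.card (EG (D.subtype : ↥D →* A) D f) := by
    rw [hcard]
    exact Ku.ndvd h
  rw [← hcard]
  refine card_le_exp hp hT hE (x := ⟨x, hx⟩) ?_ (fun h1 => ha (congrArg Subtype.val h1))
  rintro α ⟨g, hg, hα⟩ hαx
  have h1 : g ∈ CD D := by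
    refine hreg g hg ?_
    have h2 := hα ⟨x, hx⟩
    rw [hαx] at h2
    exact (eq_mul_inv_iff_mul_eq.1 h2).symm
  refine MulEquiv.ext fun t => ?_
  apply hφ
  rw [hα t, MulAut.one_apply]
  change g * (t : A) * g⁻¹ = (t : A)
  rw [← Subgroup.mem_centralizer_iff.1 h1 _ t.2, mul_inv_cancel_right]

end

end Pool.Agent.Lib.P0c8ca5.Kc
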