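import Mathlib
import Pool.Agent.Lib.P0c8ca5Ku.KE
import Pool.Agent.Lib.P0c8ca5Kc.RE
import Pool.Agent.Lib.P0c8ca5Ex.ZGb

/-!
# RB: the row bound from one regular element of large order

`l_le_exp`: if `x ∈ D` has the trivial stabilizer in `E` and `x ^ (p ^ a) ≠ 1` then `l(b) p ^ a ≤ |D|`. The `p ^ a` elements
`x ^ (1 + p) ^ j` are pairwise not conjugate, the sum of the values of a fixed row over them is `p ^ a` times one value.
-/

set_option linter.unusedSectionVars false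

namespace Pool.Agent.Lib.P0c8ca5.Kc

open MonoidAlgebra Finset Ex Ku

section
variable {T : Type*} [CommGroup T] [Fintype T] {p : ℕ}

/-- the Galois conjugates of `x` are not conjugate -/
theorem conj_pow (hp : p.Prime) (hp2 : p ≠ 2) (hT : IsPGroup p T) {γ : MulAut T} {n : ℕ}
    (hn : γ ^ n = 1) (hpn : ¬ p ∣ n) {x : T} {a : ℕ} (ha : x ^ p ^ a ≠ 1) {j j' : ℕ}
    (hj : j < p ^ a) (hj' : j' < p ^ a) (h : γ (x ^ (1 + p) ^ j) = x ^ (1 + p) ^ j') :
    j = j' := by
  have hpf : Fact p.Prime := ⟨hp⟩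
  obtain ⟨m, hm⟩ := (IsPGroup.iff_orderOf.1 hT) x
  have hma : a + 1 ≤ m := by
    by_contra hcon
    apply ha
    exact orderOf_dvd_iff_pow_eq_one.1 (by rw [hm]; exact pow_dvd_pow p (by omega))
  have hxm : x ^ p ^ m = 1 := by rw [← hm]; exact pow_orderOf_eq_one x
  have hcop : IsCoprime (((1 : ℤ) + p) ^ j) ((p : ℤ) ^ m) := by
    apply IsCoprime.pow
    exact ⟨1, -1, by ring⟩
  obtain ⟨u, v, huv⟩ := hcop
  have hzc : ∀ i : ℕ, x ^ (((1 : ℤ) + p) ^ i) = x ^ (1 + p) ^ i := by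
    intro i
    exact_mod_cast zpow_natCast x ((1 + p) ^ i)
  have h4 : x = (x ^ (1 + p) ^ j) ^ u := by
    have h5 : x = x ^ (u * ((1 : ℤ) + p) ^ j + v * (p : ℤ) ^ m) := by rw [huv, zpow_one]
    conv_lhs => rw [h5]
    have h6 : x ^ ((p : ℤ) ^ m) = 1 := by exact_mod_cast hxm
    rw [zpow_add, mul_comm v, zpow_mul x ((p : ℤ) ^ m) v, h6, one_zpow, mul_one, mul_comm u,
      zpow_mul, hzc]
  have h5 : γ x = x ^ (((1 : ℤ) + p) ^ j' * u) := by
    conv_lhs => rw [h4]
    rw [map_zpow, h, zpow_mul, hzc]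
  have h1p : ∀ i : ℕ, (p : ℤ) ∣ ((1 : ℤ) + p) ^ i - 1 := by
    intro i
    have h7 := sub_dvd_pow_sub_pow ((1 : ℤ) + p) 1 i
    rw [one_pow] at h7
    refine Dvd.dvd.trans ?_ h7
    exact ⟨1, by ring⟩
  have h6 : (p : ℤ) ∣ ((1 : ℤ) + p) ^ j' * u - 1 := by
    obtain ⟨m', rfl⟩ : ∃ m', m = m' + 1 := ⟨m - 1, by omega⟩
    obtain ⟨c, hc⟩ := h1p j
    obtain ⟨c', hc'⟩ := h1p j'
    refine ⟨c' * u - u * c - v * (p : ℤ) ^ m', ?_⟩
    rw [pow_succ] at huv
    have e1 : ((1 : ℤ) + p) ^ j = p * c + 1 := by linarith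
    have e2 : ((1 : ℤ) + p) ^ j' = p * c' + 1 := by linarith
    rw [e1] at huv
    rw [e2]
    linear_combination huv
  have h7 := fix_pow hp hT hn hpn h5 h6
  rw [map_pow, h7, pow_eq_pow_iff_modEq, hm] at h
  have h8 : (1 + p) ^ j ≡ (1 + p) ^ j' [MOD p ^ (a + 1)] := h.of_dvd (pow_dvd_pow p hma)
  have h9 := (ZMod.natCast_eq_natCast_iff _ _ _).2 h8
  push_cast at h9
  have h10 := ZMod.orderOf_one_add_prime hp hp2 a
  exact pow_injOn_Iio_orderOf (x := (1 + p : ZMod (p ^ (a + 1))))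
    (by rw [Set.mem_Iio, h10]; exact hj) (by rw [Set.mem_Iio, h10]; exact hj') h9

end

section
variable {T : Type*} [CommGroup T] [Fintype T] {K : Type*} [Field K] [CharZero K]
  [HasEnoughRootsOfUnity K (Monoid.exponent T)]
variable {p : ℕ} [Fact p.Prime] {E : Subgroup (MulAut T)} [Fintype E] {U : T → Prop} {I : Type*}
  [Fintype I] {g f : I → T → K} {n : T → ℤ} {a : ℤ} {s : ℕ}

/-- **the number of rows fixed by `u ↦ u ^ (1 + p)`** -/
theorem rows_exp (hp2 : p ≠ 2) (hU : Places E U) (hpE : ¬ p ∣ Nat.card E)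
    (hT : ∀ u : T, u ^ p ^ s = 1) (hg : ∀ i, g i ∈ vir T K)
    (horth : ∀ u v, U u → U v → (∃ φ ∈ E, v = φ u) →
      ∑ i, g i u * g i v⁻¹ = (Fintype.card T : K))
    (horth0 : ∀ u v, U u → U v → (¬ ∃ φ ∈ E, v = φ u) → ∑ i, g i u * g i v⁻¹ = 0)
    {R : Finset I} (hfix : ∀ j ∈ R, ∀ u, U u → g j (u ^ (1 + p)) = g j u)
    (hne : ∀ j ∈ R, ∀ u, U u → g j u ≠ 0) {x : T} (hx : U x) {d : ℕ} (hd : x ^ p ^ d ≠ 1) :
    R.card * p ^ d ≤ Fintype.card T := by
  classical
  have hp : p.Prime := Fact.out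
  have hTp : IsPGroup p T := fun u => ⟨s, hT u⟩
  have hs0 : s ≠ 0 := by
    rintro rfl
    apply hd
    have h1 := hT x
    rw [pow_zero, pow_one] at h1
    rw [h1, one_pow]
  have hps : NeZero (p ^ s) := ⟨(pow_pos hp.pos s).ne'⟩
  have hcopk : ∀ k : (ZMod (p ^ s))ˣ, Nat.Coprime (k : ZMod (p ^ s)).val p := fun k =>
    Nat.Coprime.coprime_dvd_right (dvd_pow_self p hs0) (ZMod.val_coe_unit_coprime k)
  have hUk : ∀ (y : T) (t : ℕ), t.Coprime p → U y → U (y ^ t) := fun y t ht hy =>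
    hU.gen y (y ^ t) (zpowers_pow ht (hT y)) hy
  have htj : ∀ j : ℕ, ((1 + p) ^ j).Coprime p := by
    intro j
    apply Nat.Coprime.pow_left
    rw [Nat.coprime_add_self_left]
    exact Nat.coprime_one_left p
  -- the sums
  let S : I → T → K := fun i y => ∑ j ∈ range (p ^ d), g i (y ^ (1 + p) ^ j)
  have hS : ∀ i y, S i y = ∑ j ∈ range (p ^ d), g i (y ^ (1 + p) ^ j) := fun i y => rfl
  have hSv : ∀ i, S i ∈ vir T K := by
    intro i
    have h1 : S i = ∑ j ∈ range (p ^ d), fun y => g i (powMonoidHom ((1 + p) ^ j) y) := by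
      funext y
      rw [Finset.sum_apply]
      rfl
    rw [h1]
    exact Subring.sum_mem _ fun j _ => Ex.vir_comp' (hg i) _
  have hSR : ∀ i ∈ R, ∀ y, U y → S i y = (p : K) ^ d * g i y := by
    intro i hi y hy
    have h1 : ∀ j : ℕ, g i (y ^ (1 + p) ^ j) = g i y := by
      intro j
      induction j with
      | zero => rw [pow_zero, pow_one]
      | succ j ih => rw [pow_succ, pow_mul, hfix i hi _ (hUk y _ (htj j) hy), ih]
    rw [hS, sum_congr rfl fun j _ => h1 j, sum_const, Finset.card_range, nsmul_eq_mul, Nat.cast_pow]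
  -- the norms
  choose z hz0 hz hz1 using fun i => nm_int (p := p) (s := s) hT (hSv i) x
  choose w hw0 hw hw1 using fun i => nm_int (p := p) (s := s) hT (hg i) x
  set N : ℕ := Fintype.card (ZMod (p ^ s))ˣ with hN
  have hN0 : 0 < N := Fintype.card_pos
  have hzR : ∀ i ∈ R, (p : ℤ) ^ d * (p : ℤ) ^ d * N ≤ z i := by
    intro i hi
    have h1 : (z i : K) = (((p : ℤ) ^ d * (p : ℤ) ^ d * w i : ℤ) : K) := by
      push_cast
      rw [hz i, hw i, nm, nm, mul_sum]
      refine sum_congr rfl fun k _ => ?_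
      have h2 := hUk x _ (hcopk k) hx
      rw [hSR i hi _ h2, hSR i hi _ (hU.inv h2)]
      ring
    have h2 : z i = (p : ℤ) ^ d * (p : ℤ) ^ d * w i := by exact_mod_cast h1
    rw [h2]
    refine mul_le_mul_of_nonneg_left (hw1 i (hne i hi x hx)) ?_
    positivity
  have hsum : ∑ i, z i = N * ((p : ℤ) ^ d * Fintype.card T) := by
    have h1 : ((∑ i, z i : ℤ) : K) = ((N * ((p : ℤ) ^ d * Fintype.card T) : ℤ) : K) := by
      push_cast
      rw [sum_congr rfl fun i _ => hz i]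
      unfold nm
      rw [sum_comm]
      have h2 : ∀ k : (ZMod (p ^ s))ˣ, ∑ i, S i (x ^ (k : ZMod (p ^ s)).val)
          * S i (x ^ (k : ZMod (p ^ s)).val)⁻¹ = (p : K) ^ d * Fintype.card T := by
        intro k
        set y := x ^ (k : ZMod (p ^ s)).val with hy
        have hUy : U y := hUk x _ (hcopk k) hx
        have hyd : y ^ p ^ d ≠ 1 := by
          intro h3
          apply hd
          have h4 : (x ^ p ^ d) ^ (k : ZMod (p ^ s)).val = 1 := by
            rw [← pow_mul, mul_comm, pow_mul, ← hy, h3]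
          obtain ⟨c, hc⟩ := exists_pow_eq_self_of_coprime (n := (k : ZMod (p ^ s)).val)
            (x := x ^ p ^ d) (Nat.Coprime.coprime_dvd_right
              (orderOf_dvd_of_pow_eq_one (hT _)) (ZMod.val_coe_unit_coprime k))
          rw [← hc, h4, one_pow]
        have h3 : ∀ i, S i y * S i y⁻¹ = ∑ j ∈ range (p ^ d), ∑ j' ∈ range (p ^ d),
            g i (y ^ (1 + p) ^ j) * g i (y ^ (1 + p) ^ j')⁻¹ := by
          intro i
          rw [hS, hS, sum_mul_sum]
          refine sum_congr rfl fun j _ => sum_congr rfl fun j' _ => ?_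
          rw [inv_pow]
        rw [sum_congr rfl fun i _ => h3 i, sum_comm]
        have h4 : ∀ j ∈ range (p ^ d), ∑ i, ∑ j' ∈ range (p ^ d),
            g i (y ^ (1 + p) ^ j) * g i (y ^ (1 + p) ^ j')⁻¹ = Fintype.card T := by
          intro j hj
          rw [sum_comm, sum_eq_single j]
          · exact horth _ _ (hUk y _ (htj j) hUy) (hUk y _ (htj j) hUy)
              ⟨1, E.one_mem, rfl⟩
          · intro j' hj' hjj
            refine horth0 _ _ (hUk y _ (htj j) hUy) (hUk y _ (htj j') hUy) ?_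
            rintro ⟨φ, hφ, h5⟩
            exact hjj (conj_pow hp hp2 hTp (ZKr.pow_E hφ) hpE hyd (mem_range.1 hj)
              (mem_range.1 hj') h5.symm).symm
          · intro h5
            exact absurd hj h5
        rw [sum_congr rfl h4, sum_const, Finset.card_range, nsmul_eq_mul, Nat.cast_pow]
      rw [sum_congr rfl fun k _ => h2 k, sum_const, card_univ, nsmul_eq_mul]
    exact_mod_cast h1
  have hle : (R.card : ℤ) * ((p : ℤ) ^ d * (p : ℤ) ^ d * N) ≤ N * ((p : ℤ) ^ d * Fintype.card T) := by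
    rw [← hsum, ← nsmul_eq_mul, ← sum_const]
    exact (sum_le_sum hzR).trans (sum_le_univ_sum_of_nonneg hz0)
  have hpd : (0 : ℤ) < (p : ℤ) ^ d := by
    have := hp.pos
    positivity
  have h5 : (N : ℤ) * (p : ℤ) ^ d * ((R.card : ℤ) * (p : ℤ) ^ d)
      ≤ (N : ℤ) * (p : ℤ) ^ d * Fintype.card T := by nlinarith
  have h6 := le_of_mul_le_mul_left h5 (by positivity)
  exact_mod_cast h6

/-- the number of fixed rows -/
theorem fix_exp (hp2 : p ≠ 2) (hU : Places E U) (hpE : ¬ p ∣ Nat.card E)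
    (hd : RowDataU p E U g f n a) {m : ℕ} (hTm : ∀ u : T, u ^ p ^ m = 1) (s : Equiv.Perm I)
    (hs : ∀ i, s i = i → ∀ u, g i (u ^ (1 + p)) = g i u) (hne : ∀ i u, U u → g i u ≠ 0)
    {x : T} (hx : U x) {c : ℕ} (hc : x ^ p ^ c ≠ 1) :
    Nat.card {i // s i = i} * p ^ c ≤ Fintype.card T := by
  classical
  have hp : p.Prime := Fact.out
  have hT : IsPGroup p T := fun u => ⟨m, hTm u⟩
  have htp : (1 + p).Coprime p := by
    rw [Nat.coprime_add_self_left]
    exact Nat.coprime_one_left p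
  obtain ⟨σ, ψ, hψ, hσ, hσg, hσE, hψf⟩ := rows_existU hp hp2 hT hU hpE hd
  have hσK : ∀ u, (σ u : K) * (σ u : K) = 1 := fun u => by exact_mod_cast hσ u
  have hσ0 : ∀ u, (σ u : K) ≠ 0 := fun u h0 => by
    have h2 := hσK u
    rw [h0, zero_mul] at h2
    exact zero_ne_one h2
  have h1 := rows_exp (R := Finset.univ.filter fun i => s i = i) hp2 hU hpE hTm hψ
    (fun u v hu hv h => by
      rw [Finset.sum_congr rfl fun i _ => by rw [hψf i u hu, hψf i v⁻¹ (hU.inv hv)]]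
      have h2 : (σ v⁻¹ : K) = (σ u : K) := by
        obtain ⟨φ, hφ, rfl⟩ := h
        rw [hσg (φ u) (φ u)⁻¹ Subgroup.zpowers_inv, hσE φ hφ]
      rw [h2]
      have h3 : ∑ i, (σ u : K) * f i u * ((σ u : K) * f i v⁻¹)
          = ((σ u : K) * (σ u : K)) * ∑ i, f i u * f i v⁻¹ := by
        rw [Finset.mul_sum]
        exact Finset.sum_congr rfl fun i _ => by ring
      rw [h3, hσK, one_mul]
      exact f_gramU hp hp2 hT hU hpE hd hu h)
    (fun u v hu hv h => by
      rw [Finset.sum_congr rfl fun i _ => by rw [hψf i u hu, hψf i v⁻¹ (hU.inv hv)]]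
      have h3 : ∑ i, (σ u : K) * f i u * ((σ v⁻¹ : K) * f i v⁻¹)
          = ((σ u : K) * (σ v⁻¹ : K)) * ∑ i, f i u * f i v⁻¹ := by
        rw [Finset.mul_sum]
        exact Finset.sum_congr rfl fun i _ => by ring
      rw [h3, f_gram0U hp hp2 hT hU hpE hd hu hv h, mul_zero])
    (fun i hi u hu => by
      have hi := (Finset.mem_filter.1 hi).2
      have hz : Subgroup.zpowers (u ^ (1 + p)) = Subgroup.zpowers u := zpowers_pow htp (hTm u)
      have hut : U (u ^ (1 + p)) := hU.gen u (u ^ (1 + p)) hz hu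
      have hn : (n u : K) ≠ 0 := fun h0 => by
        have h3 := hd.fac i u hu
        rw [h0, zero_mul] at h3
        exact hne i u hu h3
      have h3 := hs i hi u
      rw [hd.fac i u hu, hd.fac i _ hut, hd.gen u (u ^ (1 + p)) hz] at h3
      rw [hψf i u hu, hψf i _ hut, hσg u (u ^ (1 + p)) hz, mul_left_cancel₀ hn h3])
    (fun i _ u hu h0 => by
      rw [hψf i u hu] at h0
      have h5 := (mul_eq_zero.1 h0).resolve_left (hσ0 u)
      have h6 := hd.fac i u hu
      rw [h5, mul_zero] at h6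
      exact hne i u hu h6) hx hc
  rwa [Nat.card_eq_fintype_card (α := {i // s i = i}), Fintype.card_subtype]

end

section
variable {p : ℕ} [Fact p.Prime] {k : Type*} [Field k] [IsAlgClosed k] [CharP k p]
  {A : Type*} [Group A] [Fintype A] {b f : MonoidAlgebra k A} {D : Subgroup A}

/-- **the row bound** -/
theorem l_le_exp' (hp2 : p ≠ 2) (h : Root p b D f) {x : A} (hx : x ∈ D)
    (hreg : ∀ g ∈ St D f, g * x = x * g → g ∈ CD D) {a : ℕ} (ha : x ^ p ^ a ≠ 1) :
    Nat.card (Quotient (irrInvSetoid (⊤ : Subgroup A) ⊤ b)) * p ^ a ≤ Nat.card D := by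
  classical
  have hp : p.Prime := Fact.out
  have hpE : ¬ p ∣ eN D f := ndvd h
  obtain ⟨i₀, hi⟩ := exists_src h
  let _ : CommGroup ↥D := cgrp D h.com
  let _ : Fintype ↥D := Fintype.ofFinite _
  have hφ : Function.Injective (D.subtype : ↥D →* A) := Subtype.val_injective
  have hrD : ∀ x, x ∈ D ↔ ∃ t, (D.subtype : ↥D →* A) t = x :=
    fun x => ⟨fun hx => ⟨⟨x, hx⟩, rfl⟩, by rintro ⟨t, rfl⟩; exact t.2⟩
  have hb := h.blk
  obtain ⟨B, hB⟩ := exists_cenL (p := p) hb.idem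
    (fun g => invBy_iff_cj.1 hb.invBy g (Subgroup.mem_top g))
  have hcard : Nat.card (EG D.subtype D f) = eN D f := card_EG hφ hrD
  obtain ⟨I, f', n, a', hI, hIc, hd, hne⟩ := exists_rowU hp2 hi hpE hB hφ hrD
  have ht1 : (1 + p).Coprime p := by
    rw [Nat.coprime_add_self_left]
    exact Nat.coprime_one_left p
  obtain ⟨s, hs⟩ := exists_galB (p := p) (k := k) B ht1
  have h1 := fix_ge' hb hB s ht1 hs
    (fun v g M c hv hv1 hc hbc hg => no_gal1 hi hpE (t := 1 + p)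
      (by rw [Nat.add_sub_cancel_left]) (Nat.le_add_right 1 p) hv hv1 hc hbc hg)
  have := Fintype.ofFinite (EG D.subtype D f)
  obtain ⟨M, hM⟩ := pow_one_of hi
  have hTm : ∀ u : ↥D, u ^ p ^ M = 1 := fun u => Subtype.ext (hM u u.2)
  have hxst : Ex.st (EG D.subtype D f) (⟨x, hx⟩ : ↥D) = 1 := by
    rw [Ex.st, Nat.card_eq_one_iff_unique]
    have key : ∀ ψ : EG D.subtype D f, (ψ : MulAut ↥D) ⟨x, hx⟩ = ⟨x, hx⟩ → ψ = 1 := by
      rintro ⟨ψ, g, hg, hψ⟩ hψx
      have h1 : g ∈ CD D := by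
        refine hreg g hg ?_
        have h2 := hψ ⟨x, hx⟩
        rw [show ψ ⟨x, hx⟩ = ⟨x, hx⟩ from hψx] at h2
        exact (eq_mul_inv_iff_mul_eq.1 h2).symm
      refine Subtype.ext (MulEquiv.ext fun t => ?_)
      apply hφ
      rw [hψ t]
      change g * (t : A) * g⁻¹ = (t : A)
      rw [← Subgroup.mem_centralizer_iff.1 h1 _ t.2, mul_inv_cancel_right]
    exact ⟨⟨fun y z => Subtype.ext ((key y.1 y.2).trans (key z.1 z.2).symm)⟩,
      ⟨⟨1, rfl⟩⟩⟩
  have h2 := fix_exp hp2 places_reg (by rw [hcard]; exact hpE) hd hTm s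
    (fun χ hχ u => by
      have h2 := hs χ u M (hM _ u.2) I hI (hIc u)
      rw [hχ] at h2
      change chO χ.1 (single (u ^ (1 + p) : A) 1 * I) = chO χ.1 (single (u : A) 1 * I)
      rw [h2])
    (fun χ u _ => hne χ u) hxst (c := a) (fun h1 => ha (congrArg Subtype.val h1))
  rw [Nat.card_eq_fintype_card (α := ↥D)]
  exact (Nat.mul_le_mul_right _ h1).trans h2

end

section
variable {p : ℕ} [Fact p.Prime] {k : Type*} [Field k] [IsAlgClosed k] [CharP k p]
  {A : Type*} [Group A] [Fintype A] {b f : MonoidAlgebra k A} {D : Subgroup A}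

theorem l_le_exp (hp2 : p ≠ 2) (h : Root p b D f) {x : A} (hx : x ∈ D)
    (hreg : ∀ g ∈ St D f, g * x = x * g → g ∈ CD D) {a : ℕ} (ha : x ^ p ^ a ≠ 1) :
    Nat.card (IrX (⊤ : Subgroup A) b) * p ^ a ≤ Nat.card D := by
  have h1 := l_le_exp' hp2 h hx hreg ha
  rwa [card_self h.blk.mem h.blk.idem] at h1

end

end Pool.Agent.Lib.P0c8ca5.Kc
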