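import Mathlib
import Pool.Agent.Lib.P0c8ca5Kk.Km
import Pool.Agent.Lib.P0c8ca5Ex.ZKr

/-!
# Kc.RC: a normal subgroup of a defect group of rank two fixed by an element of the inertial quotient

`D` abelian of rank at most `2`, `1 ≠ R ≤ D` normal in `A`, `g₀ ∈ St D f` centralizes `R` but not `D`, `C(R) ≤ T = C(R) (T ∩ St D f)`.

* `rc_line`: the elements of order `p` of `R` lie on one line.
* `rc_fix`: an element of `St D f` which centralizes an element `≠ 1` of order `p` of `R` centralizes `R`.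
* `rc_gen`: `T / C(R)` is cyclic; `rc_dvd`: its order divides `p - 1`; `rc_lt`: `|C(R) ∩ St D f : C(D)| < p`.
-/

set_option autoImplicit false
set_option linter.unusedSectionVars false

namespace Pool.Agent.Lib.P0c8ca5.Kc

open MonoidAlgebra Bq Ex Kq Kk

section
variable {p : ℕ} [Fact p.Prime] {k : Type*} [Field k] [IsAlgClosed k] [CharP k p]
  {A : Type*} [Group A] [Fintype A] {b f : MonoidAlgebra k A} {D R T : Subgroup A}

namespace RCx

theorem hrD (D : Subgroup A) : ∀ x, x ∈ D ↔ ∃ t, (D.subtype : ↥D →* A) t = x :=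
  fun x => ⟨fun hx => ⟨⟨x, hx⟩, rfl⟩, by rintro ⟨t, rfl⟩; exact t.2⟩

/-- the rank of `↥D` -/
theorem rank_D (hrank : Nat.card {x : A // x ∈ D ∧ x ^ p = 1} ≤ p ^ 2) :
    Nat.card {x : ↥D // x ^ p = 1} ≤ p ^ 2 := by
  refine le_trans (le_of_eq (Nat.card_congr ?_)) hrank
  exact
    { toFun := fun x => ⟨x.1, x.1.2, congrArg Subtype.val x.2⟩
      invFun := fun x => ⟨⟨x.1, x.2.1⟩, Subtype.ext x.2.2⟩
      left_inv := fun x => rfl
      right_inv := fun x => rfl }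

end RCx

open RCx

/-- the elements of order `p` of `R` lie on one line -/
theorem rc_line (h : Root p b D f) (hrank : Nat.card {x : A // x ∈ D ∧ x ^ p = 1} ≤ p ^ 2)
    (hR : R ≤ D) {g₀ : A} (hg₀ : g₀ ∈ St D f) (hgR : ∀ x ∈ R, g₀ * x = x * g₀) (hgD : g₀ ∉ CD D)
    {x y : A} (hx : x ∈ R) (hx1 : x ≠ 1) (hxp : x ^ p = 1) (hy : y ∈ R) (hyp : y ^ p = 1) :
    y ∈ Subgroup.zpowers x := by
  classical
  let _ : CommGroup ↥D := cgrp D h.com
  have _ : Fintype ↥D := Fintype.ofFinite _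
  have hp : p.Prime := Fact.out
  have hφ : Function.Injective (D.subtype : ↥D →* A) := Subtype.val_injective
  have hT : IsPGroup p ↥D := h.dfg.isPGroup
  have hE : ¬ p ∣ Nat.card (EG (D.subtype : ↥D →* A) D f) := by
    rw [card_EG hφ (hrD D)]
    exact Ku.ndvd h
  obtain ⟨α, hα, hα'⟩ := exists_EG (f := f) hφ (hrD D) hg₀
  have hfix : ∀ t : ↥D, (t : A) ∈ R → α t = t := by
    intro t ht
    apply hφ
    rw [hα']
    change g₀ * (t : A) * g₀⁻¹ = (t : A)
    rw [hgR _ ht, mul_inv_cancel_right]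
  by_contra hcon
  apply hgD
  have h1 : α = 1 := ZKr.triv_of hp hT (rank_D hrank) hE hα (x := ⟨x, hR hx⟩) (y := ⟨y, hR hy⟩)
    (fun h2 => hx1 (congrArg Subtype.val h2)) (Subtype.ext hxp) (Subtype.ext hyp) (fun h2 => by
      obtain ⟨j, hj⟩ := Subgroup.mem_zpowers_iff.1 h2
      exact hcon (Subgroup.mem_zpowers_iff.2 ⟨j, congrArg Subtype.val hj⟩))
    (hfix _ hx) (by
      rw [hfix ⟨y, hR hy⟩ hy, inv_mul_cancel]
      exact Subgroup.one_mem _)
  rw [Subgroup.mem_centralizer_iff]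
  intro z hz
  have h2 := hα' ⟨z, hz⟩
  rw [h1, MulAut.one_apply] at h2
  exact eq_mul_inv_iff_mul_eq.1 h2

/-- an element of `St D f` which centralizes an element of order `p` of `R` centralizes `R` -/
theorem rc_fix (h : Root p b D f) (hrank : Nat.card {x : A // x ∈ D ∧ x ^ p = 1} ≤ p ^ 2)
    (hR : R ≤ D) (hn : Subgroup.normalizer (R : Set A) = ⊤) {g₀ : A} (hg₀ : g₀ ∈ St D f)
    (hgR : ∀ x ∈ R, g₀ * x = x * g₀) (hgD : g₀ ∉ CD D)
    {x : A} (hx : x ∈ R) (hx1 : x ≠ 1) (hxp : x ^ p = 1) {s : A} (hs : s ∈ St D f)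
    (hsx : s * x = x * s) : s ∈ CD R := by
  classical
  let _ : CommGroup ↥D := cgrp D h.com
  have _ : Fintype ↥D := Fintype.ofFinite _
  have hp : p.Prime := Fact.out
  have hφ : Function.Injective (D.subtype : ↥D →* A) := Subtype.val_injective
  have hT : IsPGroup p ↥D := h.dfg.isPGroup
  have hE : ¬ p ∣ Nat.card (EG (D.subtype : ↥D →* A) D f) := by
    rw [card_EG hφ (hrD D)]
    exact Ku.ndvd h
  obtain ⟨α, hα, hα'⟩ := exists_EG (f := f) hφ (hrD D) hs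
  have hRα : ∀ t : ↥D, (t : A) ∈ R → (α t : A) ∈ R := by
    intro t ht
    have h1 := hα' t
    change (α t : A) = s * (t : A) * s⁻¹ at h1
    rw [h1]
    exact (Subgroup.mem_normalizer_iff.1 (hn ▸ Subgroup.mem_top s) _).1 ht
  have hαx : ∀ t : ↥D, (t : A) ∈ Subgroup.zpowers x → α t = t := by
    intro t ht
    obtain ⟨j, hj⟩ := Subgroup.mem_zpowers_iff.1 ht
    apply hφ
    rw [hα']
    change s * (t : A) * s⁻¹ = (t : A)
    have h1 : Commute s x := hsx
    rw [← hj, (h1.zpow_right j).eq, mul_inv_cancel_right]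
  have key : ∀ j : ℕ, ∀ w : ↥D, (w : A) ∈ R → w ^ p ^ j = 1 → α w = w := by
    intro j
    induction j with
    | zero =>
      intro w _ hw
      rw [pow_zero, pow_one] at hw
      rw [hw, map_one]
    | succ j ih =>
      intro w hwR hw
      have h1 : (w⁻¹ * α w : ↥D) ^ p ^ j = 1 := by
        rw [mul_pow, inv_pow, ← map_pow]
        have h2 : α (w ^ p ^ j) = w ^ p ^ j := by
          refine hαx _ (rc_line h hrank hR hg₀ hgR hgD hx hx1 hxp ?_ ?_)
          · rw [Subgroup.coe_pow]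
            exact R.pow_mem hwR _
          · rw [Subgroup.coe_pow, ← pow_mul, ← pow_succ]
            exact congrArg Subtype.val hw
        rw [h2, inv_mul_cancel]
      refine ZKr.fixc hp hT hE hα (ih _ ?_ h1)
      exact R.mul_mem (R.inv_mem hwR) (hRα w hwR)
  rw [Subgroup.mem_centralizer_iff]
  intro z hz
  obtain ⟨M, hM⟩ := hT ⟨z, hR hz⟩
  have h2 := hα' ⟨z, hR hz⟩
  rw [key M ⟨z, hR hz⟩ hz hM] at h2
  exact eq_mul_inv_iff_mul_eq.1 h2

/-- an element of order `p` of `R` -/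
theorem rc_ord (h : Root p b D f) (hR : R ≤ D) (hR1 : R ≠ ⊥) :
    ∃ x ∈ R, x ≠ 1 ∧ x ^ p = 1 := by
  have hP : IsPGroup p R := h.dfg.isPGroup.to_le hR
  have hnt : Nontrivial R := (Subgroup.nontrivial_iff_ne_bot R).2 hR1
  obtain ⟨n, hn, hc⟩ := (hP.nontrivial_iff_card).1 hnt
  have hdvd : p ∣ Nat.card R := by
    rw [hc]
    exact dvd_pow_self p (by omega)
  obtain ⟨x, hx⟩ := exists_prime_orderOf_dvd_card' p hdvd
  have hx1 : x ^ p = 1 := by
    rw [← hx]
    exact pow_orderOf_eq_one x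
  have hp1 : p ≠ 1 := (Fact.out : p.Prime).ne_one
  refine ⟨x, x.2, ?_, ?_⟩
  · intro h
    have h2 : x = 1 := Subtype.ext h
    rw [h2, orderOf_one] at hx
    exact hp1 hx.symm
  · have h3 := congrArg Subtype.val hx1
    simpa using h3

/-- the action on the line: the automorphisms of a group of order `p` -/
theorem rc_hom (h : Root p b D f) (hrank : Nat.card {x : A // x ∈ D ∧ x ^ p = 1} ≤ p ^ 2)
    (hR : R ≤ D) (hR1 : R ≠ ⊥) (hn : Subgroup.normalizer (R : Set A) = ⊤) {g₀ : A}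
    (hg₀ : g₀ ∈ St D f) (hgR : ∀ x ∈ R, g₀ * x = x * g₀) (hgD : g₀ ∉ CD D) (hRT : CD R ≤ T)
    (hT : ∀ t ∈ T, ∃ g ∈ CD R, ∃ s ∈ St D f, t = g * s) :
    ∃ F : ↥T →* (ZMod p)ˣ, F.ker = (CD R).subgroupOf T := by
  classical
  have hp : p.Prime := Fact.out
  obtain ⟨x, hx, hx1, hxp⟩ := rc_ord h hR hR1
  have hxo : orderOf x = p := orderOf_eq_prime hxp hx1
  have hXn : (Subgroup.zpowers x).Normal := by
    refine ⟨fun y hy g => ?_⟩
    obtain ⟨j, rfl⟩ := Subgroup.mem_zpowers_iff.1 hy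
    have h1 : g * x * g⁻¹ ∈ R :=
      (Subgroup.mem_normalizer_iff.1 (hn ▸ Subgroup.mem_top g) _).1 hx
    have h2 : g * x * g⁻¹ ∈ Subgroup.zpowers x :=
      rc_line h hrank hR hg₀ hgR hgD hx hx1 hxp h1 (by rw [conj_pow, hxp]; group)
    rw [← conj_zpow]
    exact Subgroup.zpow_mem _ h2 j
  have hcX : Nat.card (Subgroup.zpowers x) = p := by rw [Nat.card_zpowers, hxo]
  have hcyc : IsCyclic (Subgroup.zpowers x) := inferInstance
  have e := IsCyclic.mulAutMulEquiv (Subgroup.zpowers x)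
  rw [hcX] at e
  refine ⟨e.toMonoidHom.comp ((MulAut.conjNormal (H := Subgroup.zpowers x)).comp T.subtype), ?_⟩
  ext t
  rw [MonoidHom.mem_ker, Subgroup.mem_subgroupOf, MonoidHom.comp_apply]
  have he : ∀ y, e.toMonoidHom y = 1 ↔ y = 1 := fun y => by
    constructor
    · intro hy
      exact e.injective (hy.trans (map_one e).symm)
    · rintro rfl
      exact map_one e
  rw [he]
  constructor
  · intro ht
    have h1 : (t : A) * x * (t : A)⁻¹ = x := by
      have h2 := DFunLike.congr_fun ht ⟨x, Subgroup.mem_zpowers x⟩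
      have h3 := congrArg Subtype.val h2
      exact h3
    obtain ⟨g, hg, s, hs, hts⟩ := hT t t.2
    have hgx : g * x = x * g := (Subgroup.mem_centralizer_iff.1 hg x hx).symm
    have hsx : s * x = x * s := by
      rw [hts] at h1
      have h4 : g * (s * x) = g * (x * s) := by
        have h5 := mul_inv_eq_iff_eq_mul.1 h1
        rw [← mul_assoc, h5, ← mul_assoc, ← hgx, mul_assoc]
      exact mul_left_cancel h4
    have h5 : s ∈ CD R := rc_fix h hrank hR hn hg₀ hgR hgD hx hx1 hxp hs hsx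
    rw [hts]
    exact (CD R).mul_mem hg h5
  · intro ht
    apply MulEquiv.ext
    intro y
    apply Subtype.ext
    change (t : A) * (y : A) * (t : A)⁻¹ = (y : A)
    have hyR : (y : A) ∈ R := by
      obtain ⟨j, hj⟩ := Subgroup.mem_zpowers_iff.1 y.2
      rw [← hj]
      exact R.zpow_mem hx j
    rw [← Subgroup.mem_centralizer_iff.1 ht _ hyR, mul_inv_cancel_right]

/-- `T / C(R)` is cyclic -/
theorem rc_gen (h : Root p b D f) (hrank : Nat.card {x : A // x ∈ D ∧ x ^ p = 1} ≤ p ^ 2)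
    (hR : R ≤ D) (hR1 : R ≠ ⊥) (hn : Subgroup.normalizer (R : Set A) = ⊤) {g₀ : A}
    (hg₀ : g₀ ∈ St D f) (hgR : ∀ x ∈ R, g₀ * x = x * g₀) (hgD : g₀ ∉ CD D) (hRT : CD R ≤ T)
    (hT : ∀ t ∈ T, ∃ g ∈ CD R, ∃ s ∈ St D f, t = g * s) :
    ∃ z ∈ T, ∀ t ∈ T, ∃ n : ℕ, t * (z ^ n)⁻¹ ∈ CD R := by
  obtain ⟨F, hF⟩ := rc_hom h hrank hR hR1 hn hg₀ hgR hgD hRT hT
  have hr : IsCyclic F.range := Subgroup.isCyclic F.range
  obtain ⟨⟨_, z, rfl⟩, hz⟩ := hr.exists_generator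
  have hfr : Finite F.range := Finite.of_surjective F.rangeRestrict F.rangeRestrict_surjective
  refine ⟨z, z.2, fun t ht => ?_⟩
  obtain ⟨n, hn'⟩ := mem_powers_iff_mem_zpowers.2 (hz ⟨F ⟨t, ht⟩, ⟨t, ht⟩, rfl⟩)
  refine ⟨n, ?_⟩
  have h1 : (F z) ^ n = F ⟨t, ht⟩ := congrArg Subtype.val hn'
  have h2 : (⟨t, ht⟩ : ↥T) * (z ^ n)⁻¹ ∈ F.ker := by
    rw [MonoidHom.mem_ker, map_mul, map_inv, map_pow, h1, mul_inv_cancel]
  rw [hF] at h2
  exact h2

/-- the order of `T / C(R)` divides `p - 1` -/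
theorem rc_dvd (h : Root p b D f) (hrank : Nat.card {x : A // x ∈ D ∧ x ^ p = 1} ≤ p ^ 2)
    (hR : R ≤ D) (hR1 : R ≠ ⊥) (hn : Subgroup.normalizer (R : Set A) = ⊤) {g₀ : A}
    (hg₀ : g₀ ∈ St D f) (hgR : ∀ x ∈ R, g₀ * x = x * g₀) (hgD : g₀ ∉ CD D) (hRT : CD R ≤ T)
    (hT : ∀ t ∈ T, ∃ g ∈ CD R, ∃ s ∈ St D f, t = g * s) :
    (CD R).relIndex T ∣ p - 1 := by
  obtain ⟨F, hF⟩ := rc_hom h hrank hR hR1 hn hg₀ hgR hgD hRT hT
  have hc : Nat.card (ZMod p)ˣ = p - 1 := by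
    rw [Nat.card_eq_fintype_card, ZMod.card_units_eq_totient, Nat.totient_prime Fact.out]
  rw [Subgroup.relIndex, ← hF, Subgroup.index_ker, ← hc]
  exact Subgroup.card_subgroup_dvd_card _

/-- `|C(R) ∩ St D f : C(D)| < p` -/
theorem rc_lt (h : Root p b D f) (hrank : Nat.card {x : A // x ∈ D ∧ x ^ p = 1} ≤ p ^ 2)
    (hR : R ≤ D) (hR1 : R ≠ ⊥) : (CD D).relIndex (CD R ⊓ St D f) < p := by
  classical
  let _ : CommGroup ↥D := cgrp D h.com
  have _ : Fintype ↥D := Fintype.ofFinite _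
  have hp : p.Prime := Fact.out
  have hφ : Function.Injective (D.subtype : ↥D →* A) := Subtype.val_injective
  have hPT : IsPGroup p ↥D := h.dfg.isPGroup
  have hE : ¬ p ∣ Nat.card (EG (D.subtype : ↥D →* A) D f) := by
    rw [card_EG hφ (hrD D)]
    exact Ku.ndvd h
  obtain ⟨x, hx, hx1, hxp⟩ := rc_ord h hR hR1
  set E' := Fx (EG (D.subtype : ↥D →* A) D f) (Subgroup.zpowers (⟨x, hR hx⟩ : ↥D)) with hE'
  have hle : Nat.card E' ≤ p - 1 := by
    refine ZKr.stab_le hp hPT (rank_D hrank) (fun h1 => hE (h1.trans (Subgroup.card_dvd_of_le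
      (fun α hα => hα.1)))) (x := ⟨x, hR hx⟩) (fun h1 => hx1 (congrArg Subtype.val h1))
      (Subtype.ext hxp) fun α hα => hα.2 _ (Subgroup.mem_zpowers _)
  choose ψ hψ hψ' using fun g : ↥(CD R ⊓ St D f) => exists_EG (f := f) hφ (hrD D) g.2.2
  have hmem : ∀ g, ψ g ∈ E' := by
    intro g
    refine ⟨hψ g, fun t ht => ?_⟩
    apply hφ
    rw [hψ']
    obtain ⟨j, hj⟩ := Subgroup.mem_zpowers_iff.1 ht
    change (g : A) * (t : A) * (g : A)⁻¹ = (t : A)
    have h1 : (t : A) ∈ R := by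
      rw [← hj]
      change (x : A) ^ j ∈ R
      exact R.zpow_mem hx j
    rw [← Subgroup.mem_centralizer_iff.1 g.2.1 _ h1, mul_inv_cancel_right]
  have hfin : Finite (MulAut ↥D) := Finite.of_injective (fun φ : MulAut ↥D => (φ : ↥D → ↥D))
    (fun a b h => MulEquiv.ext fun x => congrFun h x)
  have hp1 := hp.one_lt
  refine lt_of_le_of_lt ?_ (show p - 1 < p by omega)
  refine le_trans ?_ hle
  rw [Subgroup.relIndex, Subgroup.index]
  refine Nat.card_le_card_of_injective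
    (fun q : ↥(CD R ⊓ St D f) ⧸ (CD D).subgroupOf (CD R ⊓ St D f) =>
      (⟨ψ q.out, hmem _⟩ : E')) ?_
  intro q q' hqq
  have h1 : ψ q.out = ψ q'.out := congrArg Subtype.val hqq
  rw [← Quotient.out_eq' q, ← Quotient.out_eq' q']
  apply QuotientGroup.eq.2
  rw [Subgroup.mem_subgroupOf, Subgroup.mem_centralizer_iff]
  intro z hz
  have h2 := hψ' q.out ⟨z, hz⟩
  have h3 := hψ' q'.out ⟨z, hz⟩
  rw [h1, h3] at h2
  change (q'.out : A) * z * (q'.out : A)⁻¹ = (q.out : A) * z * (q.out : A)⁻¹ at h2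
  rw [Subgroup.coe_mul, Subgroup.coe_inv]
  have h4 : z * ((q.out : A)⁻¹ * (q'.out : A)) = (q.out : A)⁻¹ * ((q.out : A) * z * (q.out : A)⁻¹) * (q'.out : A) := by
    group
  rw [h4, ← h2]
  group

end

end Pool.Agent.Lib.P0c8ca5.Kc
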