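import Mathlib
import Pool.Agent.Lib.P0c8ca5Ex.ZKr
import Pool.Agent.Lib.P0c8ca5Ex.ZMa

/-!
# RG: regular elements of large order in rank two

`T` an abelian `p`-group of rank at most `2` and order at most `p ^ (2a + 1)` with an element `y`, `y ^ (p ^ a) ≠ 1`; a
`p'`-group of automorphisms has a regular element `x` with `x ^ (p ^ a) ≠ 1`.
-/

set_option linter.unusedSectionVars false

namespace Pool.Agent.Lib.P0c8ca5.Kc

open Ex

theorem exists_reg {p : ℕ} (hp : p.Prime) {T : Type*} [CommGroup T] [Finite T]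
    (hT : IsPGroup p T) (h2 : Nat.card {x : T // x ^ p = 1} ≤ p ^ 2) (E : Subgroup (MulAut T))
    (hE : ¬ p ∣ Nat.card E) {a : ℕ} {y : T} (hy : y ^ p ^ a ≠ 1)
    (hc : Nat.card T ≤ p ^ (2 * a + 1)) :
    ∃ x : T, x ^ p ^ a ≠ 1 ∧ ∀ α ∈ E, α x = x → α = 1 := by
  classical
  have : Fintype T := Fintype.ofFinite T
  have := Fact.mk hp
  by_cases hall : ∀ α ∈ E, α y = y → α = 1
  · exact ⟨y, hy, hall⟩
  push Not at hall
  obtain ⟨h, hh, hhy, hh1⟩ := hall
  have hpowh : h ^ Nat.card E = 1 := ZKr.pow_E hh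
  -- `|[T, h]| ≤ p ^ a`
  have hk : p ^ (a + 1) ≤ Nat.card (Ku.cm h).ker := by
    obtain ⟨N, hN⟩ := hT y
    obtain ⟨N, -, hN⟩ := (Nat.dvd_prime_pow hp).1 (orderOf_dvd_of_pow_eq_one hN)
    have hle : a + 1 ≤ N := by
      by_contra hcon
      apply hy
      refine orderOf_dvd_iff_pow_eq_one.1 ?_
      rw [hN]
      exact pow_dvd_pow p (by omega)
    have h1 : Subgroup.zpowers y ≤ (Ku.cm h).ker := by
      rw [Subgroup.zpowers_le, MonoidHom.mem_ker, Ku.cm_apply, hhy, inv_mul_cancel]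
    have h3 := Subgroup.card_le_of_le h1
    rw [Nat.card_zpowers, hN] at h3
    exact (Nat.pow_le_pow_right hp.pos hle).trans h3
  obtain ⟨j, hj⟩ := IsPGroup.iff_card.1 (hT.to_subgroup (Ku.cm h).range)
  have hja : j ≤ a := by
    have h3 := Ku.card_ker_mul_range (Ku.cm h)
    have h4 : p ^ (a + 1) * p ^ j ≤ p ^ (2 * a + 1) := by
      rw [← hj]
      exact (Nat.mul_le_mul_right _ hk).trans (h3.le.trans hc)
    rw [← pow_add] at h4
    have h5 := (Nat.pow_le_pow_iff_right hp.one_lt).1 h4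
    omega
  have hR : (Ku.cm h).range ≠ ⊥ := by
    intro h3
    apply hh1
    ext u
    have h4 : Ku.cm h u ∈ (Ku.cm h).range := ⟨u, rfl⟩
    rw [h3, Subgroup.mem_bot, Ku.cm_apply, inv_mul_eq_one] at h4
    rw [MulAut.one_apply, ← h4]
  obtain ⟨w, hw, hw1, hwp⟩ := Ku.exists_order hT hR
  have hwa : w ^ p ^ a = 1 := by
    have h3 : w ^ Nat.card (Ku.cm h).range = 1 := by
      have h4 : (⟨w, hw⟩ : (Ku.cm h).range) ^ Nat.card (Ku.cm h).range = 1 := pow_card_eq_one'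
      exact congrArg Subtype.val h4
    rw [hj] at h3
    rw [show a = j + (a - j) by omega, pow_add, pow_mul, h3, one_pow]
  have hxa : (y * w) ^ p ^ a = y ^ p ^ a := by rw [mul_pow, hwa, mul_one]
  refine ⟨y * w, by rw [hxa]; exact hy, fun g hg hgx => ?_⟩
  by_contra hg1
  obtain ⟨z, hz, hz1, hzp⟩ := Ku.exists_order (H := Subgroup.zpowers (y ^ p ^ a)) hT
    (fun h3 => hy (Subgroup.zpowers_eq_bot.1 h3))
  have hzy : z ∈ Subgroup.zpowers y :=
    (Subgroup.zpowers_le.2 (Subgroup.npow_mem_zpowers y _)) hz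
  have hhz : h z = z := by
    obtain ⟨i, rfl⟩ := Subgroup.mem_zpowers_iff.1 hzy
    rw [map_zpow, hhy]
  have hzx : z ∈ Subgroup.zpowers (y * w) := by
    rw [← hxa] at hz
    exact (Subgroup.zpowers_le.2 (Subgroup.npow_mem_zpowers (y * w) _)) hz
  have h3 := ZKr.fix_of_fix hp hT h2 hE hh hg hg1 hz1 hzp hzx hhz hgx
  rw [map_mul, hhy, mul_right_inj] at h3
  exact hw1 (Ku.fix_cm hp hT hpowh hE hw h3)

section
variable {p : ℕ} [Fact p.Prime] {k : Type*} [Field k] [IsAlgClosed k] [CharP k p]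
  {A : Type*} [Group A] [Finite A] {b f : MonoidAlgebra k A} {D : Subgroup A}

/-- the form for blocks -/
theorem exists_reg' (h : Root p b D f)
    (hrank : Nat.card {x : A // x ∈ D ∧ x ^ p = 1} ≤ p ^ 2) {a : ℕ} {y : A} (hy : y ∈ D)
    (hya : y ^ p ^ a ≠ 1) (hc : Nat.card D ≤ p ^ (2 * a + 1)) :
    ∃ x ∈ D, x ^ p ^ a ≠ 1 ∧ ∀ g ∈ St D f, g * x = x * g → g ∈ CD D := by
  classical
  have : Fintype A := Fintype.ofFinite A
  have hp : p.Prime := Fact.out
  obtain ⟨i, hi⟩ := exists_src h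
  let _ : CommGroup ↥D := cgrp D h.com
  have hφ : Function.Injective (D.subtype : ↥D →* A) := Subtype.val_injective
  have hrD : ∀ x, x ∈ D ↔ ∃ t, (D.subtype : ↥D →* A) t = x :=
    fun x => ⟨fun hx => ⟨⟨x, hx⟩, rfl⟩, by rintro ⟨t, rfl⟩; exact t.2⟩
  obtain ⟨M, hM⟩ := pow_one_of hi
  have hT : IsPGroup p ↥D := fun u => ⟨M, Subtype.ext (hM u u.2)⟩
  have hcard : Nat.card (EG D.subtype D f) = eN D f := card_EG hφ hrD
  have hpE' : ¬ p ∣ Nat.card (EG D.subtype D f) := by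
    rw [hcard]
    exact Ku.ndvd h
  have hrT : Nat.card {x : ↥D // x ^ p = 1} ≤ p ^ 2 := by
    refine le_trans (le_of_eq (Nat.card_congr ?_)) hrank
    exact
      { toFun := fun x => ⟨x.1, x.1.2, congrArg Subtype.val x.2⟩
        invFun := fun x => ⟨⟨x.1, x.2.1⟩, Subtype.ext x.2.2⟩
        left_inv := fun x => rfl
        right_inv := fun x => rfl }
  obtain ⟨x, hx, hreg⟩ := exists_reg hp hT hrT (EG D.subtype D f) hpE' (a := a) (y := ⟨y, hy⟩)
    (fun h1 => hya (congrArg Subtype.val h1)) hc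
  refine ⟨x, x.2, fun h1 => hx (Subtype.ext h1), fun g hg hgx => ?_⟩
  obtain ⟨ψ, hψ, hψ'⟩ := exists_EG (f := f) hφ hrD hg
  have h3 : ψ x = x := by
    apply hφ
    rw [hψ']
    change g * (x : A) * g⁻¹ = (x : A)
    rw [hgx, mul_inv_cancel_right]
  have h4 := hreg ψ hψ h3
  refine Subgroup.mem_centralizer_iff.2 fun u hu => ?_
  have h5 := hψ' ⟨u, hu⟩
  rw [h4, MulAut.one_apply] at h5
  exact eq_mul_inv_iff_mul_eq.1 h5

end

end Pool.Agent.Lib.P0c8ca5.Kc
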