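import Mathlib
import Pool.Agent.Lib.P0c8ca5Kc.CC
import Pool.Agent.Lib.P0c8ca5Kc.RB
import Pool.Agent.Lib.P0c8ca5Kc.RE
import Pool.Agent.Lib.P0c8ca5Kc.RC
import Pool.Agent.Lib.P0c8ca5Kc.RG
import Pool.Agent.Lib.P0c8ca5Kc.FR
import Pool.Agent.Lib.P0c8ca5Kk.Kv
import Pool.Agent.Lib.P0c8ca5Ex.ZVd

/-!
# Kc.RM: the weight conjecture for blocks with abelian defect groups of rank two, not homocyclic

`D` abelian of rank at most `2`, `y ^ p ^ a ≠ 1` for some `y ∈ D`, `|D| ≤ p ^ (2 a + 1)`; `p ≥ 5`, or `p = 3` and all elements of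
order `3` of `D` are cubes. Then `l(b) = kap D b` (`l_eq_kap_r2`), `gap p ⊤ ⊤ b = 0` (`gap_zero_r2`).

Induction on the order of the group, `R` a maximal normal p-subgroup.

* `C_E(R) = 1`: `Nc.l_eq_local`.
* `R = 1`: `p ^ (a + 1)` divides `l(b) - kap D b`, and `l(b)`, `kap D b ≤ p ^ (a + 1)` (`l_le_exp`, `eN_le_exp`).
* `R ≠ 1`, `C_E(R) ≠ 1`: reduction to the stabilizer `T` of a block of `C(R)` (`exists_stab`); if `T` is the whole group, `A / C(R)`
  is cyclic of order dividing `p - 1` (`rc_gen`, `rc_dvd`), `C(R)` has inertial index less than `p` (`rc_lt`), and `cyc_cmp` applies.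
-/

set_option autoImplicit false
set_option linter.unusedSectionVars false

namespace Pool.Agent.Lib.P0c8ca5.Kc

open MonoidAlgebra Bq Ex Kq Kk

universe u v

section
variable {p : ℕ} {k : Type*} [Field k] {A : Type*} [Group A]
variable [Fact p.Prime] [CharP k p] [IsAlgClosed k] [Fintype A]
variable {b f c : MonoidAlgebra k A} {D R Z : Subgroup A}

/-- a block of `C(R)` stable under `Z` is a block of `Z` -/
theorem isBlock_up (hR : IsPGroup p R) (hRZ : R ≤ Z) (hZ : Z ≤ Subgroup.normalizer (R : Set A))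
    (hCZ : CD R ≤ Z) (hc : IsBlock (CD R) c) (hcZ : ∀ z ∈ Z, cj z c = c) : IsBlock Z c where
  mem := mem_fixAlg.2 ⟨fun x hx => hCZ ((mem_fixAlg.1 hc.mem).1 x hx), invBy_iff_cj.2 hcZ⟩
  idem := hc.idem
  ne_zero := hc.ne_zero
  prim := fun e he hee hec => by
    have h1 := KgAux.supp_CD hR hRZ hZ he hee
    refine hc.prim e ?_ hee hec
    rw [mem_fixAlg]
    refine ⟨fun x hx => ?_, (mem_fixAlg.1 he).2.mono hCZ⟩
    rw [← h1, coeff_resS] at hx
    split_ifs at hx with h2
    · exact h2
    · exact absurd rfl hx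

theorem cg_one' (D : Subgroup A) : cg (1 : A) D = D := by
  ext x
  rw [mem_cg]
  simp

/-- the root for an intermediate subgroup -/
theorem root_up (h : Root p b D f) (hRD : R ≤ D) (hn : Subgroup.normalizer (R : Set A) = ⊤)
    (hCZ : CD R ≤ Z) (hc : IsBlock (CD R) c) (hcZ : ∀ z ∈ Z, cj z c = c)
    (hcf : resS (CD D : Set A) c * f = f) (hbc : resS (CD R : Set A) b * c = c) :
    IsBlock Z c ∧ IsDefectGroup p Z c D := by
  have hRp : IsPGroup p R := h.dfg.isPGroup.to_le hRD
  have hRC : R ≤ CD R := by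
    intro x hx
    rw [Subgroup.mem_centralizer_iff]
    intro y hy
    exact h.com y (hRD hy) x (hRD hx)
  have hZn : Z ≤ Subgroup.normalizer (R : Set A) := by rw [hn]; exact le_top
  have hcb := isBlock_up hRp (hRC.trans hCZ) hZn hCZ hc hcZ
  refine ⟨hcb, ?_⟩
  have h1 := KgAux.dfg_of (g := 1) h hCZ hZn hcb hbc (by rw [cg_one']; exact hRD) (by
    rw [cg_one']
    intro h0
    rw [h0, zero_mul] at hcf
    exact h.fblk.ne_zero hcf.symm)
  rwa [cg_one'] at h1

end

/-- the hypotheses of the theorem -/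
structure HypR {k : Type v} [Field k] {A : Type u} [Group A] (p a : ℕ)
    (b : MonoidAlgebra k A) (D : Subgroup A) (f : MonoidAlgebra k A) : Prop where
  root : Root p b D f
  rank : Nat.card {x : A // x ∈ D ∧ x ^ p = 1} ≤ p ^ 2
  exp : ∃ y ∈ D, y ^ p ^ a ≠ 1
  card : Nat.card D ≤ p ^ (2 * a + 1)
  five : p < 5 → ∀ x ∈ D, x ^ p = 1 → ∃ y ∈ D, x = y ^ p

section
variable {p : ℕ} [Fact p.Prime] {k : Type v} [Field k] [IsAlgClosed k] [CharP k p]
variable {A : Type u} [Group A] [Fintype A] {b f c : MonoidAlgebra k A} {D U : Subgroup A}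

theorem cj_one_f (f : MonoidAlgebra k A) : cj (1 : A) f = f := cj_one_left f

/-- the hypotheses for a local subgroup -/
theorem dn_hypR {a : ℕ} (h : HypR p a b D f) {M : Subgroup A} (hMU : CD M ≤ U) {g : A}
    (hg : M ≤ cg g D) (hc : IsBlock U c) (hgd : IsDefectGroup p U c (cg g D))
    (hcf : resS (CD (cg g D) : Set A) c * cj g f = cj g f) :
    HypR p a (dn U c) ((cg g D).subgroupOf U) (dn U (cj g f)) := by
  have hpp : p.Prime := Fact.out
  have hDU : cg g D ≤ U := hgd.le
  have hK : HypK p 2 (eN D f) 0 b D f := ⟨h.root, h.rank, (Nat.lt_pow_self hpp.one_lt).le,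
    fun x hx _ => ⟨x, by
      have h1 : Ku.cmD D f ≤ D := by
        rw [Ku.cmD, Subgroup.closure_le]
        rintro w ⟨y, hy, u, hu, rfl⟩
        exact D.mul_mem (D.inv_mem hu) ((Subgroup.mem_normalizer_iff.1 hy.1 u).1 hu)
      exact h1 hx, by rw [pow_zero, pow_one]⟩⟩
  have hK' := dn_hypK hK hMU hg hc hgd hcf
  have htr : ∀ y ∈ D, g * y * g⁻¹ ∈ cg g D := by
    intro y hy
    rw [mem_cg]
    have e1 : g⁻¹ * (g * y * g⁻¹) * g = y := by group
    rw [e1]
    exact hy
  refine ⟨hK'.root, hK'.rank, ?_, ?_, ?_⟩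
  · obtain ⟨y, hy, hya⟩ := h.exp
    refine ⟨⟨g * y * g⁻¹, hDU (htr y hy)⟩, Subgroup.mem_subgroupOf.2 (htr y hy), fun h1 => hya ?_⟩
    have h2 : (g * y * g⁻¹) ^ p ^ a = 1 := congrArg Subtype.val h1
    rw [_root_.conj_pow] at h2
    exact conj_eq_one_iff.1 h2
  · have e : Nat.card ((cg g D).subgroupOf U) = Nat.card D := by
      rw [Nat.card_congr (Subgroup.subgroupOfEquivOfLe hDU).toEquiv]
      exact card_cg g D
    rw [e]
    exact h.card
  · intro hp5 x hx hxp
    have h1 := mem_cg.1 (Subgroup.mem_subgroupOf.1 hx)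
    have h3 : (x : A) ^ p = 1 := congrArg Subtype.val hxp
    obtain ⟨y, hy, hxy⟩ := h.five hp5 _ h1 (by
      have := _root_.conj_pow (a := g⁻¹) (b := (x : A)) (i := p)
      rw [inv_inv] at this
      rw [this, h3]
      group)
    refine ⟨⟨g * y * g⁻¹, hDU (htr y hy)⟩, Subgroup.mem_subgroupOf.2 (htr y hy), Subtype.ext ?_⟩
    rw [SubmonoidClass.coe_pow, Subgroup.coe_mk, _root_.conj_pow, ← hxy]
    group

/-- the number theory of the last step -/
theorem J2_key (hp2 : p ≠ 2) {n : ℕ} (hn : n ∣ p - 1) {m : ℕ} (hm : p < 5 → m = 2)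
    (hm' : 1 ≤ m) (d : ℤ) (hd : |d| < p) (h : ((p ^ m : ℕ) : ℤ) ∣ (J2 n : ℤ) * d) : d = 0 := by
  have hpp : p.Prime := Fact.out
  by_cases hp5 : p < 5
  · have hp3 : p = 3 := by
      have h2 := hpp.two_le
      interval_cases p
      · exact absurd rfl hp2
      · rfl
      · exact absurd hpp (by norm_num)
    subst hp3
    rw [hm hp5] at h
    have h1 : J2 n = 1 ∨ J2 n = 3 := by
      have h2 : n ≤ 2 := Nat.le_of_dvd (by norm_num) hn
      interval_cases n
      · exact absurd hn (by norm_num)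
      · left; decide
      · right; decide
    rw [abs_lt] at hd
    push_cast at h hd
    rcases h1 with h1 | h1
    · rw [h1] at h
      push_cast at h
      omega
    · rw [h1] at h
      push_cast at h
      omega
  · have h1 := J2_ndvd hpp (by omega) hn
    have h2 : (p : ℤ) ∣ (J2 n : ℤ) * d := by
      refine dvd_trans ?_ h
      exact_mod_cast dvd_pow_self p (by omega)
    have h3 : (p : ℤ) ∣ d := by
      rcases (Nat.prime_iff_prime_int.1 hpp).dvd_or_dvd h2 with h4 | h4
      · exact absurd (by exact_mod_cast h4) h1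
      · exact h4
    exact Int.eq_zero_of_abs_lt_dvd h3 hd

end

theorem l_eq_kap_r2_aux {p : ℕ} [Fact p.Prime] (hp : p ≠ 2) {k : Type v} [Field k]
    [IsAlgClosed k] [CharP k p] {a : ℕ} (m : ℕ) :
    ∀ (A : Type u) [Group A] [Fintype A], Nat.card A = m →
      ∀ (b : MonoidAlgebra k A) (D : Subgroup A) (f : MonoidAlgebra k A),
        HypR p a b D f → Nat.card (IrX (⊤ : Subgroup A) b) = kap D b := by
  classical
  induction m using Nat.strong_induction_on with
  | _ m ih =>
    intro A _ _ hA b D f h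
    have hpp : p.Prime := Fact.out
    have hr := h.root
    obtain ⟨j, hj⟩ := exists_src hr
    have hE : ¬ p ∣ eN D f := Ku.ndvd hr
    obtain ⟨R, hRp, hRn, hRmax⟩ := exists_op p A
    have hRD : R ≤ D := op_le hr.blk hr.dfg hRp hRn
    by_cases hreg : ∀ g ∈ St D f, (∀ u ∈ R, g * u = u * g) → g ∈ CD D
    · exact Nc.l_eq_local hp hj hE hRD hRn hreg
    push Not at hreg
    obtain ⟨g₀, hg₀, hgR, hgD⟩ := hreg
    have hlt' : ∀ Z : Subgroup A, Z ≠ ⊤ → Nat.card Z < m := by
      intro Z hZ
      rw [← hA]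
      refine lt_of_le_of_ne (Subgroup.card_le_card_group Z) (fun h4 => hZ ?_)
      exact Subgroup.eq_top_of_card_eq _ h4
    -- the induction hypothesis for subgroups
    have ihU : ∀ (U M : Subgroup A) (c : MonoidAlgebra k A) (g : A), U ≠ ⊤ → CD M ≤ U →
        M ≤ cg g D → IsBlock U c → IsDefectGroup p U c (cg g D) →
        resS (CD (cg g D) : Set A) c * cj g f = cj g f →
        Nat.card (IrX U c) = Nat.card (IrX (Subgroup.normalizer (cg g D : Set A) ⊓ U)
          (resS (CD (cg g D) : Set A) c)) := by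
      intro U M c g hU hMU hg hc hgd hcf
      have : Fintype ↥U := Fintype.ofFinite _
      have h4 := ih _ (hlt' U hU) ↥U rfl _ _ _ (dn_hypR h hMU hg hc hgd hcf)
      have h5 := irX_dn (le_refl U) hc.suppIn
      rw [Subgroup.subgroupOf_self] at h5
      rw [← h5, h4]
      exact kap_dn hgd.le ((Subgroup.centralizer_le hg).trans hMU)
    by_cases hR1 : R = ⊥
    · -- `R = 1`
      subst hR1
      obtain ⟨y, hy, hya⟩ := h.exp
      have hlt : (⊥ : Subgroup A) < D := by
        refine lt_of_le_of_ne hRD ?_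
        rintro h0
        rw [← h0, Subgroup.mem_bot] at hy
        exact hya (by rw [hy, one_pow])
      have h1 := krQ_comm hr.blk hr.dfg hr.com hRn hRD hy
        (fun h0 => hya (Subgroup.mem_bot.1 h0))
      have h2 := kR_eq hj hlt hRn (fun τ hτ hne c hc hcb g hg hgd hcf => by
        obtain ⟨M, hM, hall, hsC, hCN, hNM⟩ := CgAux.exists_max hτ.1 hne
        exact ihU _ M c g (sN_ne_top hRmax hτ hne) hCN (hg M hM) hc hgd hcf)
      rw [h2] at h1
      obtain ⟨x, hx, hxa, hxr⟩ := exists_reg' hr h.rank hy hya h.card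
      have e0 : p ^ (2 * a + 1) = p ^ (a + 1) * p ^ a := by
        rw [← pow_add]
        congr 1
        ring
      have h3 : Nat.card (IrX (⊤ : Subgroup A) b) ≤ p ^ (a + 1) := by
        have h4 := (l_le_exp hp hr hx hxr hxa).trans h.card
        rw [e0] at h4
        exact Nat.le_of_mul_le_mul_right h4 (pow_pos hpp.pos a)
      have h4 : kap D b ≤ p ^ (a + 1) := by
        have h4 := (eN_le_exp hr hx hxr hxa).trans h.card
        rw [e0] at h4
        exact (kap_le hj).trans (Nat.le_of_mul_le_mul_right h4 (pow_pos hpp.pos a))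
      have h5 : 0 < Nat.card (IrX (⊤ : Subgroup A) b) := card_irX_pos hr.blk
      have h6 : 0 < kap D b := kap_pos hr
      have h7 : (Nat.card (IrX (⊤ : Subgroup A) b) : ℤ) - (kap D b : ℤ) = 0 := by
        refine Int.eq_zero_of_abs_lt_dvd h1 ?_
        rw [abs_lt]
        have e3 : (Nat.card (IrX (⊤ : Subgroup A) b) : ℤ) ≤ ((p ^ (a + 1) : ℕ) : ℤ) := by
          exact_mod_cast h3
        have e4 : (kap D b : ℤ) ≤ ((p ^ (a + 1) : ℕ) : ℤ) := by exact_mod_cast h4
        constructor <;> omega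
      omega
    · -- `R ≠ 1`
      obtain ⟨T, c, hCT, hc, hbc, hcT, hcf, hTS, hl, hk, hTc⟩ := exists_stab hp hr hRD hRn
      have hRD1 : R ≤ cg (1 : A) D := by rw [cg_one']; exact hRD
      have hRC : R ≤ CD R := by
        intro x hx
        rw [Subgroup.mem_centralizer_iff]
        intro y hy
        exact hr.com y (hRD hy) x (hRD hx)
      have hDR : CD D ≤ CD R := Subgroup.centralizer_le hRD
      -- the induction hypothesis between `C(R)` and `T`
      have ihZ : ∀ Z : Subgroup A, CD R ≤ Z → Z ≤ T → Z ≠ ⊤ → Nat.card (IrX Z c)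
          = Nat.card (IrX (Subgroup.normalizer (D : Set A) ⊓ Z) (resS (CD D : Set A) c)) := by
        intro Z hZ1 hZ2 hZ3
        obtain ⟨h1, h2⟩ := root_up hr hRD hRn hZ1 hc (fun z hz => hcT z (hZ2 hz)) hcf hbc
        have h3 := ihU Z R c 1 hZ3 hZ1 hRD1 h1 (by rw [cg_one']; exact h2)
          (by rw [cg_one', cj_one_f]; exact hcf)
        rwa [cg_one'] at h3
      by_cases hT : T = ⊤
      · -- the stable case
        have hcb := hTc hT
        subst hcb
        subst hT
        have hbsup : SuppIn (CD R) c := hc.suppIn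
        obtain ⟨z, _, hz⟩ := rc_gen hr h.rank hRD hR1 hRn hg₀ hgR hgD le_top hTS
        have hdvd := rc_dvd hr h.rank hRD hR1 hRn hg₀ hgR hgD le_top hTS
        have hnC : (⊤ : Subgroup A) ≤ Subgroup.normalizer (CD R : Set A) := fun w _ =>
          mem_normalizer_centralizer (by rw [hRn]; trivial)
        -- a generator in `N(D)`
        obtain ⟨g, hg, s, hs, hgs⟩ := hTS z (Subgroup.mem_top z)
        have hsz : ∀ n : ℕ, z ^ n * (s ^ n)⁻¹ ∈ CD R := by
          intro n
          induction n with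
          | zero => rw [pow_zero, pow_zero, inv_one, mul_one]; exact (CD R).one_mem
          | succ n ih =>
            have e1 : z ^ (n + 1) * (s ^ (n + 1))⁻¹ = z * (z ^ n * (s ^ n)⁻¹) * z⁻¹ * (z * s⁻¹) := by
              rw [pow_succ', pow_succ', mul_inv_rev]
              group
            rw [e1]
            refine (CD R).mul_mem ?_ ?_
            · exact (Subgroup.mem_normalizer_iff.1 (hnC (Subgroup.mem_top z)) _).1 ih
            · rw [hgs, mul_inv_cancel_right]
              exact hg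
        have hcyc : ∀ y ∈ (⊤ : Subgroup A), ∃ n : ℕ, y * (s ^ n)⁻¹ ∈ CD R := by
          intro y hy
          obtain ⟨n, hn⟩ := hz y hy
          refine ⟨n, ?_⟩
          have h1 := (CD R).mul_mem hn (hsz n)
          rwa [← mul_assoc, inv_mul_cancel_right] at h1
        have hpn : ¬ p ∣ (CD R).relIndex ⊤ := by
          intro h0
          have h1 := Nat.le_of_dvd (by have := hpp.two_le; omega) (h0.trans hdvd)
          have := hpp.two_le
          omega
        -- `C(R)` has inertial index less than `p`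
        obtain ⟨hb1, hd1⟩ := root_up hr hRD hRn (le_refl (CD R)) hc
          (fun z _ => hcT z (Subgroup.mem_top z)) hcf hbc
        have hfb : SuppIn (CD R) f := fun x hx => hDR (hr.fblk.suppIn x hx)
        have hroot : Root p (dn (CD R) c) (D.subgroupOf (CD R)) (dn (CD R) f) := by
          refine root_dn (CD R) hc hd1 hr.com ?_ hcf
          rw [inf_eq_right.2 hDR]
          exact hr.fblk
        have : Fintype ↥(CD R) := Fintype.ofFinite _
        have heN : eN (D.subgroupOf (CD R)) (dn (CD R) f) < p := by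
          rw [eN_dn (CD R) hd1.le hfb]
          exact rc_lt hr h.rank hRD hR1
        obtain ⟨j', hj'⟩ := exists_src hroot
        have h3 : Nat.card (IrX (CD R) c) < p := by
          have h4 := (l_le_lt_p hp hroot heN).trans_lt heN
          have h5 := irX_dn (le_refl (CD R)) hc.suppIn
          rw [Subgroup.subgroupOf_self] at h5
          rw [card_top hroot.blk, h5] at h4
          exact h4
        have h3' : Nat.card (IrX (Subgroup.normalizer (D : Set A) ⊓ CD R)
            (resS (CD D : Set A) c)) < p := by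
          rw [← kap_dn hd1.le hDR]
          exact (kap_le hj').trans_lt heN
        -- the congruence
        obtain ⟨m, hm1, hm2, hq⟩ : ∃ m, 1 ≤ m ∧ (p < 5 → m = 2) ∧
            (((p ^ m : ℕ) : ℤ) ∣ (Nat.card (IrX (⊤ : Subgroup A) c) : ℤ) - (kap D c : ℤ)) := by
          by_cases hp5 : p < 5
          · refine ⟨2, by norm_num, fun _ => rfl, ?_⟩
            refine l_kap_dvd (n := 1) hp hr fun x hx hxp => ?_
            have h1 : Ku.cmD D f ≤ D := by
              rw [Ku.cmD, Subgroup.closure_le]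
              rintro w ⟨y, hy, u, hu, rfl⟩
              exact D.mul_mem (D.inv_mem hu) ((Subgroup.mem_normalizer_iff.1 hy.1 u).1 hu)
            obtain ⟨y, hy, hxy⟩ := h.five hp5 x (h1 hx) hxp
            exact ⟨y, hy, by rw [pow_one]; exact hxy⟩
          · refine ⟨1, le_rfl, fun h0 => absurd h0 hp5, ?_⟩
            refine l_kap_dvd (n := 0) hp hr fun x hx hxp => ?_
            have h1 : Ku.cmD D f ≤ D := by
              rw [Ku.cmD, Subgroup.closure_le]
              rintro w ⟨y, hy, u, hu, rfl⟩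
              exact D.mul_mem (D.inv_mem hu) ((Subgroup.mem_normalizer_iff.1 hy.1 u).1 hu)
            exact ⟨x, h1 hx, by rw [pow_zero, pow_one]⟩
        have hDN : CD D ≤ Subgroup.normalizer (D : Set A) := Subgroup.centralizer_le_normalizer _
        have hres : resS (CD D : Set A) c ∈ fixAlg k (Subgroup.normalizer (D : Set A))
            (Subgroup.normalizer (D : Set A)) := CfAux.res_mem hr.blk.mem hDN le_rfl
        have hmain := cyc_cmp (p := p) (N := CD R) (Y := ⊤)
          (M := Subgroup.normalizer (D : Set A)) le_top hnC hbsup hr.blk.invBy hr.blk.idem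
          (f' := resS (CD D : Set A) c) (fun x hx => ⟨hDN (resS_suppIn x hx), hDR (resS_suppIn x hx)⟩)
          ((mem_fixAlg.1 hres).2.mono inf_le_left)
          (CfAux.res_idem (p := p) hr.blk.mem hr.blk.idem hr.dfg.isPGroup)
          (Subgroup.mem_top s) hs.1 hcyc hpn
          (fun Z hZ1 _ hZ3 => ihZ Z hZ1 le_top hZ3) (q := ((p ^ m : ℕ) : ℤ))
          (by rw [inf_top_eq]; exact hq) h3 h3'
          (fun d hd hdd => J2_key hp hdvd hm2 hm1 d hd hdd)
        rw [inf_top_eq] at hmain
        exact hmain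
      · rw [hl, hk]
        exact ihZ T hCT le_rfl hT

/-- **the weight conjecture for blocks with abelian defect groups of rank two which are not homocyclic** -/
theorem l_eq_kap_r2 {p : ℕ} [Fact p.Prime] (hp : p ≠ 2) {k : Type v} [Field k] [IsAlgClosed k]
    [CharP k p] {a : ℕ} {A : Type u} [Group A] [Fintype A] {b : MonoidAlgebra k A}
    {D : Subgroup A} {f : MonoidAlgebra k A} (h : HypR p a b D f) :
    Nat.card (IrX (⊤ : Subgroup A) b) = kap D b :=
  l_eq_kap_r2_aux hp _ A rfl b D f h

theorem gap_zero_r2 {p : ℕ} [Fact p.Prime] (hp : p ≠ 2) {k : Type v} [Field k]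
    [IsAlgClosed k] [CharP k p] {a : ℕ} {A : Type u} [Group A] [Fintype A]
    {b : MonoidAlgebra k A} {D : Subgroup A} {f : MonoidAlgebra k A}
    (h : HypR p a b D f) : gap p (⊤ : Subgroup A) ⊤ b = 0 := by
  obtain ⟨j, hj⟩ := exists_src h.root
  have hnd : ¬ p ∣ eN D f := Ku.ndvd h.root
  obtain ⟨T, hT1, hT2⟩ := exists_transversal (⊤ : Subgroup A) (Theta p (⊤ : Subgroup A) ⊤ b)
  have hk := wt_kap hj hnd T hT1 hT2
  have hinv : InvBy ⊤ b := h.root.blk.invBy
  have hg := gap_eq (p := p) (le_refl (⊤ : Subgroup A)) (by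
    intro x _
    rw [Subgroup.mem_normalizer_iff]
    intro y
    simp) (fun x _ => ⟨0, Subgroup.mem_top _⟩) h.root.blk hinv T hT1 hT2
  rw [card_top h.root.blk, hk] at hg
  rw [hg, l_eq_kap_r2 hp h, sub_self]

end Pool.Agent.Lib.P0c8ca5.Kc
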